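import Pool.Agent.Helper1.PFS.B

/-!
# Product-free subsets of `SL₂(F_p)`: the lines of the quadric `det = 1`
-/

set_option linter.unusedSectionVars false
set_option linter.unusedSimpArgs false

namespace Pool.Agent.Helper1.PFS

open Finset

section

variable {p : ℕ} [Fact p.Prime]

/-- The determinant of two vectors. -/
def dd (a b : ZMod p × ZMod p) : ZMod p := a.1 * b.2 - a.2 * b.1

lemma dd_self_smul (a : ZMod p × ZMod p) (c : ZMod p) : dd a (c • a) = 0 := by
  simp only [dd, Prod.smul_fst, Prod.smul_snd, smul_eq_mul]; ring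

lemma par_exists {r r' : ZMod p × ZMod p} (hr : r ≠ 0) (h : dd r r' = 0) : ∃ c : ZMod p, c • r = r' := by
  unfold dd at h
  by_cases h1 : r.1 = 0
  · have h2 : r.2 ≠ 0 := fun h2 => hr (Prod.ext h1 h2)
    refine ⟨r'.2 * r.2⁻¹, Prod.ext ?_ ?_⟩
    · rw [Prod.smul_fst, smul_eq_mul, h1, mul_zero]
      rw [h1, zero_mul, zero_sub, neg_eq_zero] at h
      exact ((mul_eq_zero.1 h).resolve_left h2).symm
    · rw [Prod.smul_snd, smul_eq_mul, inv_mul_cancel_right₀ h2]
  · refine ⟨r'.1 * r.1⁻¹, Prod.ext ?_ ?_⟩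
    · rw [Prod.smul_fst, smul_eq_mul, inv_mul_cancel_right₀ h1]
    · rw [Prod.smul_snd, smul_eq_mul]
      have h3 : r.1 * (r'.1 * r.1⁻¹ * r.2) = r.1 * r'.2 := by
        have h4 : r.1 * r.1⁻¹ = 1 := mul_inv_cancel₀ h1
        linear_combination r'.1 * r.2 * h4 - h
      exact mul_left_cancel₀ h1 h3

/-- Sum over the vectors parallel to `r`. -/
lemma sum_par {M : Type*} [AddCommMonoid M] {r : ZMod p × ZMod p} (hr : r ≠ 0)
    (F : ZMod p × ZMod p → M) :
    (∑ r' : ZMod p × ZMod p, if dd r r' = 0 then F r' else 0) = ∑ c : ZMod p, F (c • r) := by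
  rw [← Finset.sum_filter]
  symm
  refine Finset.sum_bij (fun c _ => c • r) ?_ ?_ ?_ ?_
  · intro c _
    rw [Finset.mem_filter]
    exact ⟨Finset.mem_univ _, dd_self_smul r c⟩
  · intro c _ c' _ h
    have h1 : (c - c') • r = 0 := by rw [sub_smul, h, sub_self]
    exact sub_eq_zero.1 ((smul_eq_zero.1 h1).resolve_right hr)
  · intro r' hr'
    obtain ⟨c, hc⟩ := par_exists hr (Finset.mem_filter.1 hr').2
    exact ⟨c, Finset.mem_univ _, hc⟩
  · intro c _; rfl

/-- The number of `v'` with `dd v v' = d`. -/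
lemma card_dd {v : ZMod p × ZMod p} (hv : v ≠ 0) (d : ZMod p) :
    (∑ v' : ZMod p × ZMod p, if dd v v' = d then (1 : ℝ) else 0) = p := by
  -- a vector with determinant one
  obtain ⟨w, hw⟩ : ∃ w : ZMod p × ZMod p, dd v w = 1 := by
    by_cases h1 : v.1 = 0
    · have h2 : v.2 ≠ 0 := fun h2 => hv (Prod.ext h1 h2)
      refine ⟨(-(v.2)⁻¹, 0), ?_⟩
      unfold dd
      simp only [mul_zero, zero_sub, mul_neg, neg_neg]
      exact mul_inv_cancel₀ h2
    · refine ⟨(0, (v.1)⁻¹), ?_⟩
      unfold dd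
      simp only [mul_zero, sub_zero]
      exact mul_inv_cancel₀ h1
  have h1 : (∑ v' : ZMod p × ZMod p, if dd v v' = d then (1 : ℝ) else 0) =
      ∑ v' : ZMod p × ZMod p, if dd v v' = 0 then (1 : ℝ) else 0 := by
    rw [← Equiv.sum_comp (Equiv.addRight (d • w))
      (fun v' => if dd v v' = d then (1 : ℝ) else 0)]
    refine Finset.sum_congr rfl fun v' _ => ?_
    have h2 : dd v (v' + d • w) = dd v v' + d := by
      have : dd v (v' + d • w) = dd v v' + d * dd v w := by
        simp only [dd, Prod.fst_add, Prod.snd_add, Prod.smul_fst, Prod.smul_snd, smul_eq_mul]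
        ring
      rw [this, hw, mul_one]
    simp only [Equiv.coe_addRight, h2]
    by_cases h3 : dd v v' = 0
    · rw [if_pos h3, h3, zero_add, if_pos rfl]
    · rw [if_neg h3, if_neg]
      intro h4
      exact h3 (add_eq_right.1 h4)
  rw [h1, sum_par hv (fun _ => (1 : ℝ)), Finset.sum_const, Finset.card_univ, ZMod.card,
    nsmul_eq_mul, mul_one]

lemma rmul_smul (c : ZMod p) (r : ZMod p × ZMod p) (g : G p) :
    rmul (c • r) g = c • rmul r g := by
  unfold rmul
  refine Prod.ext ?_ ?_
  · simp only [Prod.smul_fst, Prod.smul_snd, smul_eq_mul]; ring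
  · simp only [Prod.smul_fst, Prod.smul_snd, smul_eq_mul]; ring

lemma rmul_zero' (g : G p) : rmul 0 g = 0 := by
  unfold rmul; simp

lemma dd_rmul (r r' : ZMod p × ZMod p) (g : G p) : dd (rmul r g) (rmul r' g) = dd r r' := by
  have hd : g.1 0 0 * g.1 1 1 - g.1 0 1 * g.1 1 0 = 1 := by
    have := g.2
    rwa [Matrix.det_fin_two] at this
  simp only [dd, rmul]
  linear_combination (r.1 * r'.2 - r.2 * r'.1) * hd

/-- `g` is determined by the images of two independent vectors. -/
lemma sum_pair {r r' : ZMod p × ZMod p} (hd : dd r r' ≠ 0)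
    (F : ZMod p × ZMod p → ZMod p × ZMod p → ℝ) :
    ∑ g : G p, F (rmul r g) (rmul r' g) =
      ∑ v : ZMod p × ZMod p, ∑ v' : ZMod p × ZMod p,
        if dd r r' = dd v v' then F v v' else 0 := by
  rw [← Fintype.sum_prod_type'
    (f := fun v v' : ZMod p × ZMod p => if dd r r' = dd v v' then F v v' else 0),
    ← Finset.sum_filter]
  refine Finset.sum_bij (fun g _ => (rmul r g, rmul r' g)) ?_ ?_ ?_ ?_
  · intro g _
    rw [Finset.mem_filter]
    exact ⟨Finset.mem_univ _, (dd_rmul r r' g).symm⟩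
  · intro g _ h _ hgh
    have e1 := congrArg Prod.fst hgh
    have e2 := congrArg Prod.snd hgh
    simp only [rmul, Prod.mk.injEq] at e1 e2
    obtain ⟨a1, a2⟩ := e1
    obtain ⟨b1, b2⟩ := e2
    unfold dd at hd
    apply Subtype.ext
    ext i j
    fin_cases i <;> fin_cases j
    · refine mul_left_cancel₀ hd ?_
      change (r.1 * r'.2 - r.2 * r'.1) * g.1 0 0 = (r.1 * r'.2 - r.2 * r'.1) * h.1 0 0
      linear_combination r'.2 * a1 - r.2 * b1
    · refine mul_left_cancel₀ hd ?_
      change (r.1 * r'.2 - r.2 * r'.1) * g.1 0 1 = (r.1 * r'.2 - r.2 * r'.1) * h.1 0 1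
      linear_combination r'.2 * a2 - r.2 * b2
    · refine mul_left_cancel₀ hd ?_
      change (r.1 * r'.2 - r.2 * r'.1) * g.1 1 0 = (r.1 * r'.2 - r.2 * r'.1) * h.1 1 0
      linear_combination r.1 * b1 - r'.1 * a1
    · refine mul_left_cancel₀ hd ?_
      change (r.1 * r'.2 - r.2 * r'.1) * g.1 1 1 = (r.1 * r'.2 - r.2 * r'.1) * h.1 1 1
      linear_combination r.1 * b2 - r'.1 * a2
  · rintro ⟨v, v'⟩ hv
    have h1 : dd r r' = dd v v' := (Finset.mem_filter.1 hv).2
    set d := dd r r' with hd_def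
    have hdi : d * d⁻¹ = 1 := mul_inv_cancel₀ hd
    have hd1 : d = r.1 * r'.2 - r.2 * r'.1 := hd_def
    have hd2 : d = v.1 * v'.2 - v.2 * v'.1 := h1
    let A : Matrix (Fin 2) (Fin 2) (ZMod p) :=
      !![d⁻¹ * (r'.2 * v.1 - r.2 * v'.1), d⁻¹ * (r'.2 * v.2 - r.2 * v'.2);
         d⁻¹ * (r.1 * v'.1 - r'.1 * v.1), d⁻¹ * (r.1 * v'.2 - r'.1 * v.2)]
    have hA : A.det = 1 := by
      rw [Matrix.det_fin_two_of]
      have : d⁻¹ * (r'.2 * v.1 - r.2 * v'.1) * (d⁻¹ * (r.1 * v'.2 - r'.1 * v.2)) -
          d⁻¹ * (r'.2 * v.2 - r.2 * v'.2) * (d⁻¹ * (r.1 * v'.1 - r'.1 * v.1)) =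
          (d⁻¹) ^ 2 * ((r.1 * r'.2 - r.2 * r'.1) * (v.1 * v'.2 - v.2 * v'.1)) := by ring
      rw [this, ← hd1, ← hd2]
      linear_combination (d * d⁻¹ + 1) * hdi
    refine ⟨⟨A, hA⟩, Finset.mem_univ _, ?_⟩
    have e1 : rmul r (⟨A, hA⟩ : G p) = v := by
      refine Prod.ext ?_ ?_
      · change r.1 * (d⁻¹ * (r'.2 * v.1 - r.2 * v'.1)) +
          r.2 * (d⁻¹ * (r.1 * v'.1 - r'.1 * v.1)) = v.1
        have : r.1 * (d⁻¹ * (r'.2 * v.1 - r.2 * v'.1)) +
          r.2 * (d⁻¹ * (r.1 * v'.1 - r'.1 * v.1)) = d⁻¹ * (r.1 * r'.2 - r.2 * r'.1) * v.1 := by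
          ring
        rw [this, ← hd1]
        linear_combination v.1 * hdi
      · change r.1 * (d⁻¹ * (r'.2 * v.2 - r.2 * v'.2)) +
          r.2 * (d⁻¹ * (r.1 * v'.2 - r'.1 * v.2)) = v.2
        have : r.1 * (d⁻¹ * (r'.2 * v.2 - r.2 * v'.2)) +
          r.2 * (d⁻¹ * (r.1 * v'.2 - r'.1 * v.2)) = d⁻¹ * (r.1 * r'.2 - r.2 * r'.1) * v.2 := by
          ring
        rw [this, ← hd1]
        linear_combination v.2 * hdi
    have e2 : rmul r' (⟨A, hA⟩ : G p) = v' := by
      refine Prod.ext ?_ ?_
      · change r'.1 * (d⁻¹ * (r'.2 * v.1 - r.2 * v'.1)) +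
          r'.2 * (d⁻¹ * (r.1 * v'.1 - r'.1 * v.1)) = v'.1
        have : r'.1 * (d⁻¹ * (r'.2 * v.1 - r.2 * v'.1)) +
          r'.2 * (d⁻¹ * (r.1 * v'.1 - r'.1 * v.1)) = d⁻¹ * (r.1 * r'.2 - r.2 * r'.1) * v'.1 := by
          ring
        rw [this, ← hd1]
        linear_combination v'.1 * hdi
      · change r'.1 * (d⁻¹ * (r'.2 * v.2 - r.2 * v'.2)) +
          r'.2 * (d⁻¹ * (r.1 * v'.2 - r'.1 * v.2)) = v'.2
        have : r'.1 * (d⁻¹ * (r'.2 * v.2 - r.2 * v'.2)) +
          r'.2 * (d⁻¹ * (r.1 * v'.2 - r'.1 * v.2)) = d⁻¹ * (r.1 * r'.2 - r.2 * r'.1) * v'.2 := by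
          ring
        rw [this, ← hd1]
        linear_combination v'.2 * hdi
    rw [e1, e2]
  · intro g _; rfl

end

section main

variable {p : ℕ} [Fact p.Prime] (f : G p → ℝ)

lemma lineSum_smul {c : ZMod p} (hc : c ≠ 0) (r v : ZMod p × ZMod p) :
    lineSum f (c • r) (c • v) = lineSum f r v := by
  unfold lineSum
  refine Finset.sum_congr rfl fun g _ => ?_
  rw [rmul_smul]
  have h : (c • rmul r g = c • v) ↔ (rmul r g = v) := by
    constructor
    · intro h
      have h1 : c • (rmul r g - v) = 0 := by rw [smul_sub, h, sub_self]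
      exact sub_eq_zero.1 ((smul_eq_zero.1 h1).resolve_left hc)
    · intro h; rw [h]
  by_cases h1 : rmul r g = v
  · rw [if_pos h1, if_pos (h.2 h1)]
  · rw [if_neg h1, if_neg (fun h2 => h1 (h.1 h2))]

variable (hf : ∑ g, f g = 0)

include hf

lemma lineSum_zero_left (v : ZMod p × ZMod p) : lineSum f 0 v = 0 := by
  unfold lineSum
  simp_rw [rmul_zero']
  by_cases h : (0 : ZMod p × ZMod p) = v
  · simp_rw [if_pos h]; exact hf
  · simp_rw [if_neg h]; exact Finset.sum_const_zero

lemma lineSum_zero_right (r : ZMod p × ZMod p) : lineSum f r 0 = 0 := by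
  by_cases hr : r = 0
  · rw [hr]; exact lineSum_zero_left f hf 0
  · unfold lineSum
    refine Finset.sum_eq_zero fun g _ => ?_
    rw [if_neg]
    intro h
    apply hr
    -- find r' with dd r r' ≠ 0
    by_contra hr0
    have h1 : ∀ r' : ZMod p × ZMod p, dd r r' = 0 := by
      intro r'
      rw [← dd_rmul r r' g, h]
      unfold dd; simp
    have h2 := h1 (0, 1)
    have h3 := h1 (1, 0)
    unfold dd at h2 h3
    simp only [mul_one, mul_zero, sub_zero, zero_sub, neg_eq_zero] at h2 h3
    exact hr0 (Prod.ext h2 h3)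

/-- `∑ v, M r v = 0`. -/
lemma sum_lineSum_eq (r : ZMod p × ZMod p) : ∑ v, lineSum f r v = 0 := by
  refine Eq.trans ?_ hf
  unfold lineSum
  rw [Finset.sum_comm]
  refine Finset.sum_congr rfl fun g _ => ?_
  rw [Finset.sum_ite_eq]
  simp

/-- The pairs of parallel vectors. -/
lemma par_part :
    ∑ r : ZMod p × ZMod p, ∑ r' : ZMod p × ZMod p, (if dd r r' = 0 then
      ∑ g : G p, lineSum f r (rmul r g) * lineSum f r' (rmul r' g) else 0) =
    p * (p - 1) * ∑ r : ZMod p × ZMod p, ∑ v : ZMod p × ZMod p, lineSum f r v ^ 2 := by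
  have hp1 : 1 ≤ p := (Fact.out : p.Prime).one_lt.le
  rw [Finset.mul_sum]
  refine Finset.sum_congr rfl fun r _ => ?_
  by_cases hr : r = 0
  · subst hr
    have h1 : ∀ v : ZMod p × ZMod p, lineSum f 0 v = 0 := lineSum_zero_left f hf
    simp_rw [h1]
    simp
  · rw [sum_par hr (fun r' => ∑ g : G p, lineSum f r (rmul r g) * lineSum f r' (rmul r' g))]
    have h1 : ∀ c : ZMod p, ∑ g : G p, lineSum f r (rmul r g) * lineSum f (c • r) (rmul (c • r) g) =
        (if c = 0 then 0 else 1) * ∑ g : G p, lineSum f r (rmul r g) ^ 2 := by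
      intro c
      by_cases hc : c = 0
      · subst hc
        rw [if_pos rfl, zero_mul]
        refine Finset.sum_eq_zero fun g _ => ?_
        rw [zero_smul, lineSum_zero_left f hf, mul_zero]
      · rw [if_neg hc, one_mul]
        refine Finset.sum_congr rfl fun g _ => ?_
        rw [rmul_smul, lineSum_smul f hc, pow_two]
    simp_rw [h1]
    rw [← Finset.sum_mul]
    have h2 : ∑ c : ZMod p, (if c = 0 then (0 : ℝ) else 1) = p - 1 := by
      have h3 : ∀ c : ZMod p, (if c = 0 then (0 : ℝ) else 1) = 1 - (if c = 0 then 1 else 0) := by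
        intro c; by_cases h : c = 0 <;> simp [h]
      simp_rw [h3]
      rw [Finset.sum_sub_distrib, Finset.sum_const, Finset.card_univ, ZMod.card, nsmul_eq_mul,
        mul_one, Finset.sum_ite_eq']
      simp
    rw [h2]
    -- the sum over g
    obtain ⟨w, hw⟩ : ∃ w : ZMod p × ZMod p, dd r w ≠ 0 := by
      by_contra hcon
      push Not at hcon
      have h4 := hcon (0, 1)
      have h5 := hcon (1, 0)
      unfold dd at h4 h5
      simp only [mul_one, mul_zero, sub_zero, zero_sub, neg_eq_zero] at h4 h5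
      exact hr (Prod.ext h4 h5)
    have h6 := sum_pair hw (fun v _ => lineSum f r v ^ 2)
    rw [h6]
    have h7 : ∀ v : ZMod p × ZMod p, (∑ v' : ZMod p × ZMod p,
        if dd r w = dd v v' then lineSum f r v ^ 2 else 0) = p * lineSum f r v ^ 2 := by
      intro v
      by_cases hv : v = 0
      · subst hv
        rw [lineSum_zero_right f hf]
        simp
      · rw [← card_dd hv (dd r w), Finset.sum_mul]
        refine Finset.sum_congr rfl fun v' _ => ?_
        by_cases h8 : dd v v' = dd r w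
        · rw [if_pos h8, if_pos h8.symm, one_mul]
        · rw [if_neg h8, if_neg (fun h9 => h8 h9.symm), zero_mul]
    simp_rw [h7]
    rw [← Finset.mul_sum]
    ring

/-- The nonnegative part. -/
lemma nonneg_part :
    0 ≤ ∑ r : ZMod p × ZMod p, ∑ r' : ZMod p × ZMod p, (if dd r r' = 0 then
      ∑ v : ZMod p × ZMod p, ∑ v' : ZMod p × ZMod p,
        (if dd r r' = dd v v' then lineSum f r v * lineSum f r' v' else 0) else 0) := by
  -- `N r v`
  set N : ZMod p × ZMod p → ZMod p × ZMod p → ℝ := fun r v => ∑ μ : ZMod p, lineSum f r (μ • v)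
    with hN
  have hNs : ∀ (r v : ZMod p × ZMod p) (ν : ZMod p), ν ≠ 0 → N r (ν • v) = N r v := by
    intro r v ν hν
    rw [hN]
    simp only
    rw [← Equiv.sum_comp (Equiv.mulRight₀ ν hν) (fun μ => lineSum f r (μ • v))]
    refine Finset.sum_congr rfl fun μ _ => ?_
    rw [smul_smul]
    rfl
  have h1 : ∀ r : ZMod p × ZMod p, (∑ r' : ZMod p × ZMod p, (if dd r r' = 0 then
      ∑ v : ZMod p × ZMod p, ∑ v' : ZMod p × ZMod p,
        (if dd r r' = dd v v' then lineSum f r v * lineSum f r' v' else 0) else 0)) =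
      ∑ v : ZMod p × ZMod p, N r v ^ 2 := by
    intro r
    by_cases hr : r = 0
    · subst hr
      have h1 : ∀ v : ZMod p × ZMod p, lineSum f 0 v = 0 := lineSum_zero_left f hf
      simp only [hN]
      simp_rw [h1]
      simp
    · have e1 : (∑ r' : ZMod p × ZMod p, (if dd r r' = 0 then
          ∑ v : ZMod p × ZMod p, ∑ v' : ZMod p × ZMod p,
          (if dd r r' = dd v v' then lineSum f r v * lineSum f r' v' else 0) else 0)) =
          ∑ r' : ZMod p × ZMod p, (if dd r r' = 0 then
          ∑ v : ZMod p × ZMod p, ∑ v' : ZMod p × ZMod p,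
          (if dd v v' = 0 then lineSum f r v * lineSum f r' v' else 0) else 0) := by
        refine Finset.sum_congr rfl fun r' _ => ?_
        by_cases h : dd r r' = 0
        · rw [if_pos h, if_pos h, h]
          refine Finset.sum_congr rfl fun v _ => Finset.sum_congr rfl fun v' _ => ?_
          by_cases h2 : dd v v' = 0
          · rw [if_pos h2, if_pos h2.symm]
          · rw [if_neg h2, if_neg (fun h3 => h2 h3.symm)]
        · rw [if_neg h, if_neg h]
      rw [e1, sum_par hr (fun r' => ∑ v : ZMod p × ZMod p, ∑ v' : ZMod p × ZMod p,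
          (if dd v v' = 0 then lineSum f r v * lineSum f r' v' else 0))]
      -- inner sum over v'
      have e2 : ∀ (c : ZMod p) (v : ZMod p × ZMod p), (∑ v' : ZMod p × ZMod p,
          (if dd v v' = 0 then lineSum f r v * lineSum f (c • r) v' else 0)) =
          (if c = 0 then 0 else 1) * (lineSum f r v * N r v) := by
        intro c v
        by_cases hv : v = 0
        · subst hv
          rw [lineSum_zero_right f hf]
          simp
        · rw [sum_par hv (fun v' => lineSum f r v * lineSum f (c • r) v')]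
          by_cases hc : c = 0
          · subst hc
            rw [if_pos rfl, zero_mul]
            refine Finset.sum_eq_zero fun μ _ => ?_
            rw [zero_smul, lineSum_zero_left f hf, mul_zero]
          · rw [if_neg hc, one_mul, ← Finset.mul_sum]
            congr 1
            rw [hN]
            simp only
            rw [← Equiv.sum_comp (Equiv.mulLeft₀ c hc) (fun μ => lineSum f (c • r) (μ • v))]
            refine Finset.sum_congr rfl fun μ _ => ?_
            change lineSum f (c • r) ((c * μ) • v) = _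
            rw [← smul_smul, lineSum_smul f hc]
      simp_rw [e2]
      rw [Finset.sum_comm]
      -- reindex
      have e3 : ∀ c : ZMod p, ∑ v : ZMod p × ZMod p,
          (if c = 0 then 0 else 1) * (lineSum f r v * N r v) =
          ∑ v : ZMod p × ZMod p, lineSum f r (c • v) * N r v := by
        intro c
        by_cases hc : c = 0
        · subst hc
          simp only [if_pos, zero_mul, Finset.sum_const_zero, zero_smul]
          symm
          refine Finset.sum_eq_zero fun v _ => ?_
          rw [lineSum_zero_right f hf, zero_mul]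
        · simp only [if_neg hc, one_mul]
          let e : (ZMod p × ZMod p) ≃ (ZMod p × ZMod p) :=
            { toFun := fun v => c • v
              invFun := fun v => c⁻¹ • v
              left_inv := fun v => by
                simp only [smul_smul, inv_mul_cancel₀ hc, one_smul]
              right_inv := fun v => by
                simp only [smul_smul, mul_inv_cancel₀ hc, one_smul] }
          rw [← Equiv.sum_comp e (fun v => lineSum f r v * N r v)]
          refine Finset.sum_congr rfl fun v _ => ?_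
          change lineSum f r (c • v) * N r (c • v) = _
          rw [hNs r v c hc]
      rw [Finset.sum_comm]
      simp_rw [e3]
      rw [Finset.sum_comm]
      refine Finset.sum_congr rfl fun v _ => ?_
      rw [← Finset.sum_mul, pow_two]
  simp_rw [h1]
  exact Finset.sum_nonneg fun r _ => Finset.sum_nonneg fun v _ => sq_nonneg _

end main

section sympl

variable {p : ℕ} [Fact p.Prime]

/-- The symplectic form. -/
def om (x y : (ZMod p × ZMod p) × (ZMod p × ZMod p)) : ZMod p := dd x.1 y.1 - dd x.2 y.2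

lemma sum_om (z : (ZMod p × ZMod p) × (ZMod p × ZMod p)) :
    ∑ y : (ZMod p × ZMod p) × (ZMod p × ZMod p), ee (om z y) =
      if z = 0 then (p : ℂ) ^ 4 else 0 := by
  have h1 : ∀ y : (ZMod p × ZMod p) × (ZMod p × ZMod p), ee (om z y) =
      (ee (-z.1.2 * y.1.1) * ee (z.1.1 * y.1.2)) * (ee (z.2.2 * y.2.1) * ee (-z.2.1 * y.2.2)) := by
    intro y
    rw [← ee_add, ← ee_add, ← ee_add]
    congr 1
    unfold om dd
    ring
  simp_rw [h1]
  rw [Fintype.sum_prod_type]
  simp only
  simp_rw [← Finset.mul_sum]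
  rw [← Finset.sum_mul, Fintype.sum_prod_type, Fintype.sum_prod_type]
  simp only
  simp_rw [← Finset.mul_sum]
  rw [← Finset.sum_mul, ← Finset.sum_mul, sum_ee', sum_ee', sum_ee', sum_ee']
  by_cases hz : z = 0
  · subst hz
    simp
    ring
  · rw [if_neg hz]
    by_cases h2 : z.1.1 = 0
    · by_cases h3 : z.1.2 = 0
      · by_cases h4 : z.2.1 = 0
        · have h5 : z.2.2 ≠ 0 := by
            intro h5
            exact hz (Prod.ext (Prod.ext h2 h3) (Prod.ext h4 h5))
          rw [if_neg h5]; ring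
        · rw [if_neg (neg_ne_zero.2 h4)]; ring
      · rw [if_neg (neg_ne_zero.2 h3)]; ring
    · rw [if_neg h2]; ring

/-- Parseval for the symplectic Fourier transform. -/
lemma parseval_om (L : (ZMod p × ZMod p) × (ZMod p × ZMod p) → ℝ) :
    ∑ y, ‖∑ x, ee (om x y) * (L x : ℂ)‖ ^ 2 = (p : ℝ) ^ 4 * ∑ x, L x ^ 2 := by
  have h1 : ∀ y : (ZMod p × ZMod p) × (ZMod p × ZMod p),
      ((‖∑ x, ee (om x y) * (L x : ℂ)‖ ^ 2 : ℝ) : ℂ) =
      ∑ x, ∑ x', ee (om (x - x') y) * ((L x : ℂ) * L x') := by
    intro y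
    rw [← Complex.normSq_eq_norm_sq, ← Complex.mul_conj, map_sum, Finset.sum_mul_sum]
    refine Finset.sum_congr rfl fun x _ => Finset.sum_congr rfl fun x' _ => ?_
    rw [map_mul, conj_ee, Complex.conj_ofReal]
    have : om (x - x') y = om x y + -om x' y := by
      simp only [om, dd, Prod.fst_sub, Prod.snd_sub]
      ring
    rw [this, ee_add]
    ring
  have h2 : ((∑ y, ‖∑ x, ee (om x y) * (L x : ℂ)‖ ^ 2 : ℝ) : ℂ) =
      (((p : ℝ) ^ 4 * ∑ x, L x ^ 2 : ℝ) : ℂ) := by
    push_cast
    simp_rw [← Complex.ofReal_pow, h1]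
    rw [Finset.sum_comm]
    have h3 : ∀ x : (ZMod p × ZMod p) × (ZMod p × ZMod p), ∑ y, ∑ x',
        ee (om (x - x') y) * ((L x : ℂ) * L x') = (p : ℂ) ^ 4 * ((L x ^ 2 : ℝ) : ℂ) := by
      intro x
      rw [Finset.sum_comm]
      simp_rw [← Finset.sum_mul, sum_om, sub_eq_zero]
      rw [Finset.sum_eq_single x]
      · rw [if_pos rfl, pow_two (L x)]
        push_cast
        ring
      · intro x' _ hx'
        rw [if_neg (Ne.symm hx'), zero_mul]
      · intro hs; exact absurd (Finset.mem_univ _) hs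
    simp_rw [h3]
    rw [Finset.mul_sum]
  exact_mod_cast h2

/-- The bound for the symplectic kernel on scale invariant functions. -/
lemma om_bound (L : (ZMod p × ZMod p) × (ZMod p × ZMod p) → ℝ) (hL0 : ∑ x, L x = 0)
    (hLs : ∀ (c : ZMod p) x, c ≠ 0 → L (c • x) = L x) :
    ∑ x, ∑ y, (if om x y = 0 then L x * L y else 0) ≤ p * (p - 1) * ∑ x, L x ^ 2 := by
  have hp0 : (0 : ℝ) < p := by exact_mod_cast (Fact.out : p.Prime).pos
  have hp1 : (1 : ℝ) ≤ p := by exact_mod_cast (Fact.out : p.Prime).one_lt.le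
  set E : ℂ := ∑ x, ∑ y, ee (om x y) * ((L x : ℂ) * L y) with hE
  have hEn : ‖E‖ ≤ (p : ℝ) ^ 2 * ∑ x, L x ^ 2 := by
    have h1 : E = ∑ y, (L y : ℂ) * ∑ x, ee (om x y) * (L x : ℂ) := by
      rw [hE, Finset.sum_comm]
      refine Finset.sum_congr rfl fun y _ => ?_
      rw [Finset.mul_sum]
      refine Finset.sum_congr rfl fun x _ => ?_
      ring
    rw [h1]
    have h2 : ‖∑ y, (L y : ℂ) * ∑ x, ee (om x y) * (L x : ℂ)‖ ≤
        ∑ y, |L y| * ‖∑ x, ee (om x y) * (L x : ℂ)‖ := by
      refine (norm_sum_le _ _).trans (Finset.sum_le_sum fun y _ => ?_)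
      rw [norm_mul, Complex.norm_real, Real.norm_eq_abs]
    have h3 := Finset.sum_mul_sq_le_sq_mul_sq
      (Finset.univ : Finset ((ZMod p × ZMod p) × (ZMod p × ZMod p)))
      (fun y => |L y|) (fun y => ‖∑ x, ee (om x y) * (L x : ℂ)‖)
    rw [parseval_om] at h3
    simp_rw [sq_abs] at h3
    have h4 : (∑ y, |L y| * ‖∑ x, ee (om x y) * (L x : ℂ)‖) ^ 2 ≤
        ((p : ℝ) ^ 2 * ∑ x, L x ^ 2) ^ 2 := by
      refine h3.trans (le_of_eq ?_)
      ring
    have h5 : 0 ≤ (p : ℝ) ^ 2 * ∑ x, L x ^ 2 :=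
      mul_nonneg (by positivity) (Finset.sum_nonneg fun _ _ => sq_nonneg _)
    exact h2.trans (abs_le_of_sq_le_sq' h4 h5).2
  -- the scaled sums
  have hsc : ∀ t : ZMod p, ∑ x, ∑ y, ee (t * om x y) * ((L x : ℂ) * L y) =
      if t = 0 then 0 else E := by
    intro t
    by_cases ht : t = 0
    · subst ht
      rw [if_pos rfl]
      simp only [zero_mul, ee_zero, one_mul]
      simp_rw [← Finset.mul_sum]
      rw [← Finset.sum_mul]
      have : ∑ x, (L x : ℂ) = 0 := by exact_mod_cast congrArg (fun r : ℝ => (r : ℂ)) hL0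
      rw [this, zero_mul]
    · rw [if_neg ht, hE]
      let e : ((ZMod p × ZMod p) × (ZMod p × ZMod p)) ≃ ((ZMod p × ZMod p) × (ZMod p × ZMod p)) :=
        { toFun := fun v => t • v
          invFun := fun v => t⁻¹ • v
          left_inv := fun v => by
            simp only [smul_smul, inv_mul_cancel₀ ht, one_smul]
          right_inv := fun v => by
            simp only [smul_smul, mul_inv_cancel₀ ht, one_smul] }
      rw [← Equiv.sum_comp e (fun x => ∑ y, ee (om x y) * ((L x : ℂ) * L y))]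
      refine Finset.sum_congr rfl fun x _ => Finset.sum_congr rfl fun y _ => ?_
      have h1 : om (e x) y = t * om x y := by
        change om (t • x) y = _
        simp only [om, dd, Prod.smul_fst, Prod.smul_snd, smul_eq_mul]
        ring
      have h2 : L (e x) = L x := hLs t x ht
      rw [h1, h2]
  -- the count
  have hQ : ((∑ x, ∑ y, (if om x y = 0 then L x * L y else 0) : ℝ) : ℂ) * p = (p - 1) * E := by
    have h1 : ∀ x y : (ZMod p × ZMod p) × (ZMod p × ZMod p),
        ((if om x y = 0 then L x * L y else 0 : ℝ) : ℂ) * p =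
        ∑ t : ZMod p, ee (t * om x y) * ((L x : ℂ) * L y) := by
      intro x y
      rw [← Finset.sum_mul, sum_ee]
      by_cases h : om x y = 0
      · rw [if_pos h, if_pos h]; push_cast; ring
      · rw [if_neg h, if_neg h]; push_cast; ring
    have h2 : ∀ x : (ZMod p × ZMod p) × (ZMod p × ZMod p),
        ((∑ y, (if om x y = 0 then L x * L y else 0) : ℝ) : ℂ) * p =
        ∑ t : ZMod p, ∑ y, ee (t * om x y) * ((L x : ℂ) * L y) := by
      intro x
      rw [Complex.ofReal_sum, Finset.sum_mul, Finset.sum_comm]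
      exact Finset.sum_congr rfl fun y _ => h1 x y
    rw [Complex.ofReal_sum, Finset.sum_mul, Finset.sum_congr rfl fun x _ => h2 x,
      Finset.sum_comm]
    simp_rw [hsc]
    have h3 : ∀ t : ZMod p, (if t = 0 then (0 : ℂ) else E) = E - (if t = 0 then E else 0) := by
      intro t; by_cases h : t = 0 <;> simp [h]
    simp_rw [h3]
    rw [Finset.sum_sub_distrib, Finset.sum_const, Finset.card_univ, ZMod.card, nsmul_eq_mul,
      Finset.sum_ite_eq']
    simp only [Finset.mem_univ, if_true]
    ring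
  have h6 := congrArg norm hQ
  rw [norm_mul, norm_mul, Complex.norm_real, Complex.norm_natCast] at h6
  have h7 : ‖((p : ℂ) - 1)‖ = (p : ℝ) - 1 := by
    have : ((p : ℂ) - 1) = (((p : ℝ) - 1 : ℝ) : ℂ) := by push_cast; ring
    rw [this, Complex.norm_real, Real.norm_eq_abs, abs_of_nonneg (by linarith)]
  rw [h7] at h6
  have h8 : ‖(∑ x, ∑ y, (if om x y = 0 then L x * L y else 0) : ℝ)‖ * p ≤
      ((p : ℝ) - 1) * ((p : ℝ) ^ 2 * ∑ x, L x ^ 2) := by
    rw [h6]
    exact mul_le_mul_of_nonneg_left hEn (by linarith)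
  have h9 : (∑ x, ∑ y, (if om x y = 0 then L x * L y else 0) : ℝ) ≤
      ‖(∑ x, ∑ y, (if om x y = 0 then L x * L y else 0) : ℝ)‖ := Real.le_norm_self _
  have h10 : ((p : ℝ) - 1) * ((p : ℝ) ^ 2 * ∑ x, L x ^ 2) =
      (p * (p - 1) * ∑ x, L x ^ 2) * p := by ring
  rw [h10] at h8
  exact h9.trans (le_of_mul_le_mul_right h8 hp0)

end sympl

/-- The second eigenvalue of the lines of the quadric `det = 1`. -/
theorem pA : StA := by
  intro p hp f hf
  have hp0 : (0 : ℝ) < p := by exact_mod_cast (Fact.out : p.Prime).pos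
  have hp1 : (1 : ℝ) ≤ p := by exact_mod_cast (Fact.out : p.Prime).one_lt.le
  set A : ℝ := ∑ r : ZMod p × ZMod p, ∑ v : ZMod p × ZMod p, lineSum f r v ^ 2 with hA
  have hA0 : 0 ≤ A := Finset.sum_nonneg fun _ _ => Finset.sum_nonneg fun _ _ => sq_nonneg _
  set H : G p → ℝ := fun g => ∑ r : ZMod p × ZMod p, lineSum f r (rmul r g) with hH
  have hAH : A = ∑ g, f g * H g := by
    rw [hA]
    have h1 : ∀ r : ZMod p × ZMod p, ∑ v : ZMod p × ZMod p, lineSum f r v ^ 2 =
        ∑ g, f g * lineSum f r (rmul r g) := by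
      intro r
      have h2 : ∀ v : ZMod p × ZMod p, lineSum f r v ^ 2 =
          ∑ g : G p, if rmul r g = v then f g * lineSum f r v else 0 := by
        intro v
        rw [pow_two]
        nth_rewrite 1 [lineSum]
        rw [Finset.sum_mul]
        refine Finset.sum_congr rfl fun g _ => ?_
        by_cases h : rmul r g = v
        · rw [if_pos h, if_pos h]
        · rw [if_neg h, if_neg h, zero_mul]
      simp_rw [h2]
      rw [Finset.sum_comm]
      refine Finset.sum_congr rfl fun g _ => ?_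
      rw [Finset.sum_ite_eq]
      simp
    simp_rw [h1]
    rw [Finset.sum_comm]
    refine Finset.sum_congr rfl fun g _ => ?_
    rw [hH, Finset.mul_sum]
  -- the sum of the squares of H
  have hH2 : ∑ g, H g ^ 2 ≤ 2 * p * (p - 1) * A := by
    have h1 : ∑ g, H g ^ 2 = ∑ r : ZMod p × ZMod p, ∑ r' : ZMod p × ZMod p,
        ∑ g : G p, lineSum f r (rmul r g) * lineSum f r' (rmul r' g) := by
      have h2 : ∀ g : G p, H g ^ 2 = ∑ r : ZMod p × ZMod p, ∑ r' : ZMod p × ZMod p,
          lineSum f r (rmul r g) * lineSum f r' (rmul r' g) := by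
        intro g
        rw [pow_two, hH, Finset.sum_mul_sum]
      simp_rw [h2]
      rw [Finset.sum_comm]
      refine Finset.sum_congr rfl fun r _ => ?_
      rw [Finset.sum_comm]
    -- split
    have h3 : ∀ r r' : ZMod p × ZMod p,
        ∑ g : G p, lineSum f r (rmul r g) * lineSum f r' (rmul r' g) =
        (if dd r r' = 0 then
          ∑ g : G p, lineSum f r (rmul r g) * lineSum f r' (rmul r' g) else 0) +
        ((∑ v : ZMod p × ZMod p, ∑ v' : ZMod p × ZMod p,
          if dd r r' = dd v v' then lineSum f r v * lineSum f r' v' else 0) -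
        (if dd r r' = 0 then ∑ v : ZMod p × ZMod p, ∑ v' : ZMod p × ZMod p,
          (if dd r r' = dd v v' then lineSum f r v * lineSum f r' v' else 0) else 0)) := by
      intro r r'
      by_cases h : dd r r' = 0
      · rw [if_pos h, if_pos h]; ring
      · rw [if_neg h, if_neg h, sub_zero, zero_add]
        exact sum_pair h (fun v v' => lineSum f r v * lineSum f r' v')
    have h3' := Finset.sum_congr (rfl : (Finset.univ : Finset (ZMod p × ZMod p)) = Finset.univ)
      fun r _ => Finset.sum_congr (rfl : (Finset.univ : Finset (ZMod p × ZMod p)) = Finset.univ)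
        fun r' _ => h3 r r'
    rw [h1, h3']
    simp_rw [Finset.sum_add_distrib, Finset.sum_sub_distrib]
    rw [par_part f hf]
    have h4 := nonneg_part f hf
    -- the symplectic bound
    have h5 : ∑ r : ZMod p × ZMod p, ∑ r' : ZMod p × ZMod p, (∑ v : ZMod p × ZMod p,
        ∑ v' : ZMod p × ZMod p,
        if dd r r' = dd v v' then lineSum f r v * lineSum f r' v' else 0) ≤ p * (p - 1) * A := by
      have h6 := om_bound (p := p) (fun x => lineSum f x.1 x.2) (by
          rw [Fintype.sum_prod_type]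
          exact Finset.sum_eq_zero fun r _ => sum_lineSum_eq f hf r)
        (by
          intro c x hc
          exact lineSum_smul f hc x.1 x.2)
      have h7 : ∑ x : (ZMod p × ZMod p) × (ZMod p × ZMod p), lineSum f x.1 x.2 ^ 2 = A := by
        rw [Fintype.sum_prod_type]
      rw [h7] at h6
      refine le_trans (le_of_eq ?_) h6
      have h10 : ∀ r : ZMod p × ZMod p, (∑ r' : ZMod p × ZMod p, ∑ v : ZMod p × ZMod p,
          ∑ v' : ZMod p × ZMod p,
          if dd r r' = dd v v' then lineSum f r v * lineSum f r' v' else 0) =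
          ∑ v : ZMod p × ZMod p, ∑ y : (ZMod p × ZMod p) × (ZMod p × ZMod p),
            if om (r, v) y = 0 then lineSum f r v * lineSum f y.1 y.2 else 0 := by
        intro r
        rw [Finset.sum_comm]
        refine Finset.sum_congr (rfl : (Finset.univ : Finset (ZMod p × ZMod p)) = Finset.univ)
          fun v _ => ?_
        have h12 : ∑ y : (ZMod p × ZMod p) × (ZMod p × ZMod p),
            (if om (r, v) y = 0 then lineSum f r v * lineSum f y.1 y.2 else 0) =
            ∑ r' : ZMod p × ZMod p, ∑ v' : ZMod p × ZMod p,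
              (if om (r, v) (r', v') = 0 then lineSum f r v * lineSum f r' v' else 0) :=
          Fintype.sum_prod_type _
        rw [h12]
        refine Finset.sum_congr (rfl : (Finset.univ : Finset (ZMod p × ZMod p)) = Finset.univ)
          fun r' _ => Finset.sum_congr
            (rfl : (Finset.univ : Finset (ZMod p × ZMod p)) = Finset.univ) fun v' _ => ?_
        have h8 : om (r, v) (r', v') = 0 ↔ dd r r' = dd v v' := by
          unfold om
          rw [sub_eq_zero]
        by_cases h9 : dd r r' = dd v v'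
        · rw [if_pos h9, if_pos (h8.2 h9)]
        · rw [if_neg h9, if_neg (fun h => h9 (h8.1 h))]
      have h11 : ∑ x : (ZMod p × ZMod p) × (ZMod p × ZMod p),
          (∑ y, if om x y = 0 then lineSum f x.1 x.2 * lineSum f y.1 y.2 else 0) =
          ∑ r : ZMod p × ZMod p, ∑ v : ZMod p × ZMod p,
            ∑ y : (ZMod p × ZMod p) × (ZMod p × ZMod p),
            if om (r, v) y = 0 then lineSum f r v * lineSum f y.1 y.2 else 0 :=
        Fintype.sum_prod_type _
      rw [h11]
      exact Finset.sum_congr (rfl : (Finset.univ : Finset (ZMod p × ZMod p)) = Finset.univ)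
        fun r _ => h10 r
    linarith
  have hCS := Finset.sum_mul_sq_le_sq_mul_sq (Finset.univ : Finset (G p)) f H
  rw [← hAH] at hCS
  have hf20 : 0 ≤ ∑ g, f g ^ 2 := Finset.sum_nonneg fun _ _ => sq_nonneg _
  have h1 : A ^ 2 ≤ (∑ g, f g ^ 2) * (2 * p * (p - 1) * A) :=
    hCS.trans (mul_le_mul_of_nonneg_left hH2 hf20)
  rcases hA0.eq_or_lt with h | h
  · rw [← h]
    have : (0 : ℝ) ≤ p - 1 := by linarith
    positivity
  · have h2 : A * A ≤ (2 * p * (p - 1) * ∑ g, f g ^ 2) * A := by
      calc A * A = A ^ 2 := by ring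
        _ ≤ _ := h1
        _ = _ := by ring
    exact le_of_mul_le_mul_right h2 h

end Pool.Agent.Helper1.PFS
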