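import Pool.Agent.Helper1.PFS.St

/-!
# Product-free subsets of `SL₂(F_p)`: mixing in the Borel subgroup
-/

namespace Pool.Agent.Helper1.PFS

open Finset

section fourier

variable {p : ℕ} [Fact p.Prime]

/-- The standard additive character. -/
noncomputable def ee (x : ZMod p) : ℂ := ZMod.stdAddChar x

lemma ee_add (x y : ZMod p) : ee (x + y) = ee x * ee y := AddChar.map_add_eq_mul _ _ _

lemma ee_zero : ee (0 : ZMod p) = 1 := AddChar.map_zero_eq_one _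

lemma norm_ee (x : ZMod p) : ‖ee x‖ = 1 := by
  unfold ee
  rw [ZMod.stdAddChar_apply, Circle.norm_coe]

lemma conj_ee (x : ZMod p) : (starRingEnd ℂ) (ee x) = ee (-x) := by
  have h1 : ee x * ee (-x) = 1 := by rw [← ee_add, add_neg_cancel, ee_zero]
  have h2 : ee x * (starRingEnd ℂ) (ee x) = 1 := by
    rw [Complex.mul_conj, Complex.normSq_eq_norm_sq, norm_ee]; norm_num
  have h3 : ee x ≠ 0 := by
    intro h
    have := norm_ee x
    rw [h, norm_zero] at this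
    exact zero_ne_one this
  exact mul_left_cancel₀ h3 (h2.trans h1.symm)

lemma sum_ee (b : ZMod p) : ∑ x : ZMod p, ee (x * b) = if b = 0 then (p : ℂ) else 0 := by
  unfold ee
  rw [AddChar.sum_mulShift b (ZMod.isPrimitive_stdAddChar p), ZMod.card]
  push_cast
  rfl

lemma sum_ee' (b : ZMod p) : ∑ x : ZMod p, ee (b * x) = if b = 0 then (p : ℂ) else 0 := by
  simp_rw [mul_comm b]; exact sum_ee b

/-- Parseval. -/
lemma parseval (h : ZMod p → ℂ) :
    ∑ η : ZMod p, ‖∑ s : ZMod p, ee (-(η * s)) * h s‖ ^ 2 = p * ∑ s : ZMod p, ‖h s‖ ^ 2 := by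
  have h1 : ∀ η : ZMod p, ((‖∑ s : ZMod p, ee (-(η * s)) * h s‖ ^ 2 : ℝ) : ℂ) =
      ∑ s : ZMod p, ∑ t : ZMod p, ee (η * (t - s)) * (h s * (starRingEnd ℂ) (h t)) := by
    intro η
    rw [← Complex.normSq_eq_norm_sq, ← Complex.mul_conj, map_sum, Finset.sum_mul_sum]
    refine Finset.sum_congr rfl fun s _ => Finset.sum_congr rfl fun t _ => ?_
    rw [map_mul, conj_ee, neg_neg]
    have : η * (t - s) = -(η * s) + η * t := by ring
    rw [this, ee_add]
    ring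
  have h2 : ((∑ η : ZMod p, ‖∑ s : ZMod p, ee (-(η * s)) * h s‖ ^ 2 : ℝ) : ℂ) =
      ((p * ∑ s : ZMod p, ‖h s‖ ^ 2 : ℝ) : ℂ) := by
    push_cast
    simp_rw [← Complex.ofReal_pow, h1]
    rw [Finset.sum_comm]
    have h3 : ∀ s : ZMod p, ∑ η : ZMod p, ∑ t : ZMod p,
        ee (η * (t - s)) * (h s * (starRingEnd ℂ) (h t)) = p * ((‖h s‖ ^ 2 : ℝ) : ℂ) := by
      intro s
      rw [Finset.sum_comm]
      simp_rw [← Finset.sum_mul, sum_ee, sub_eq_zero]
      rw [Finset.sum_eq_single s]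
      · rw [if_pos rfl, ← Complex.normSq_eq_norm_sq, ← Complex.mul_conj]
      · intro t _ hts
        rw [if_neg hts, zero_mul]
      · intro hs; exact absurd (Finset.mem_univ _) hs
    simp_rw [h3]
    rw [Finset.mul_sum]
  exact_mod_cast h2

end fourier

section

variable {p : ℕ} [Fact p.Prime]

lemma uu_add (s t : ZMod p) : (uu (s + t) : G p) = uu s * uu t := by
  apply Subtype.ext
  rw [Matrix.SpecialLinearGroup.coe_mul]
  simp [uu, add_comm]

lemma uu_zero : (uu (0 : ZMod p) : G p) = 1 := by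
  apply Subtype.ext
  simp [uu, Matrix.one_fin_two]

lemma mm_uu (c : (ZMod p)ˣ) (s : ZMod p) :
    (mm c * uu s : G p) = uu ((c : ZMod p) ^ 2 * s) * mm c := by
  apply Subtype.ext
  rw [Matrix.SpecialLinearGroup.coe_mul, Matrix.SpecialLinearGroup.coe_mul]
  have h : (c : ZMod p) ^ 2 * s * ((c⁻¹ : (ZMod p)ˣ) : ZMod p) = (c : ZMod p) * s := by
    have h1 : (c : ZMod p) * ((c⁻¹ : (ZMod p)ˣ) : ZMod p) = 1 := Units.mul_inv c
    linear_combination (c : ZMod p) * s * h1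
  change !![(c : ZMod p), 0; 0, ((c⁻¹ : (ZMod p)ˣ) : ZMod p)] * !![1, s; 0, 1] =
    !![1, (c : ZMod p) ^ 2 * s; 0, 1] * !![(c : ZMod p), 0; 0, ((c⁻¹ : (ZMod p)ˣ) : ZMod p)]
  rw [Matrix.mul_fin_two, Matrix.mul_fin_two]
  simp only [mul_one, mul_zero, add_zero, zero_mul, zero_add, one_mul, h]

/-- The partial Fourier transform along the left `U`-orbits. -/
noncomputable def ft (F : G p → ℝ) (η : ZMod p) (g : G p) : ℂ :=
  ∑ s : ZMod p, ee (-(η * s)) * (F (uu s * g) : ℂ)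

lemma ft_uu (F : G p → ℝ) (η r : ZMod p) (g : G p) :
    ft F η (uu r * g) = ee (η * r) * ft F η g := by
  unfold ft
  rw [Finset.mul_sum, ← Equiv.sum_comp (Equiv.addRight r)
    (fun s => ee (η * r) * (ee (-(η * s)) * (F (uu s * g) : ℂ)))]
  refine Finset.sum_congr rfl fun s _ => ?_
  simp only [Equiv.coe_addRight]
  rw [← mul_assoc (uu s), ← uu_add, ← mul_assoc, ← ee_add]
  congr 2
  ring

/-- The energy at frequency `η`. -/
noncomputable def nf (F : G p → ℝ) (η : ZMod p) : ℝ := ∑ g : G p, ‖ft F η g‖ ^ 2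

lemma nf_nonneg (F : G p → ℝ) (η : ZMod p) : 0 ≤ nf F η :=
  Finset.sum_nonneg fun _ _ => sq_nonneg _

lemma sum_left (a : G p) {M : Type*} [AddCommMonoid M] (f : G p → M) :
    ∑ g, f (a * g) = ∑ g, f g :=
  Equiv.sum_comp (Equiv.mulLeft a) f

lemma sum_nf (F : G p → ℝ) : ∑ η : ZMod p, nf F η = p ^ 2 * ∑ g, F g ^ 2 := by
  unfold nf
  rw [Finset.sum_comm]
  have h1 : ∀ g : G p, ∑ η : ZMod p, ‖ft F η g‖ ^ 2 = p * ∑ s : ZMod p, F (uu s * g) ^ 2 := by
    intro g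
    unfold ft
    rw [parseval]
    congr 1
    refine Finset.sum_congr rfl fun s _ => ?_
    rw [Complex.norm_real, Real.norm_eq_abs, sq_abs]
  simp_rw [h1]
  rw [← Finset.mul_sum, Finset.sum_comm]
  have h2 : ∀ s : ZMod p, ∑ g : G p, F (uu s * g) ^ 2 = ∑ g, F g ^ 2 := fun s =>
    sum_left (uu s) (fun g => F g ^ 2)
  simp_rw [h2]
  rw [Finset.sum_const, Finset.card_univ, ZMod.card, nsmul_eq_mul]
  ring

/-- The Fourier transform of the correlation. -/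
lemma cor_ft (F F' : G p → ℝ) (η : ZMod p) :
    (p : ℂ) * ∑ s : ZMod p, ee (-(η * s)) * ((∑ y, F y * F' (uu s * y) : ℝ) : ℂ) =
      ∑ y : G p, ft F' η y * (starRingEnd ℂ) (ft F η y) := by
  have h1 : ∑ s : ZMod p, ee (-(η * s)) * ((∑ y, F y * F' (uu s * y) : ℝ) : ℂ) =
      ∑ y : G p, (F y : ℂ) * ft F' η y := by
    unfold ft
    push_cast
    simp_rw [Finset.mul_sum]
    rw [Finset.sum_comm]
    refine Finset.sum_congr rfl fun y _ => Finset.sum_congr rfl fun s _ => ?_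
    ring
  rw [h1]
  have h2 : ∀ r : ZMod p, ∑ y : G p, (F y : ℂ) * ft F' η y =
      ∑ y : G p, (F (uu r * y) : ℂ) * (ee (η * r) * ft F' η y) := by
    intro r
    rw [← sum_left (uu r) (fun y => (F y : ℂ) * ft F' η y)]
    refine Finset.sum_congr rfl fun y _ => ?_
    rw [ft_uu]
  have h3 : (p : ℂ) * ∑ y : G p, (F y : ℂ) * ft F' η y =
      ∑ r : ZMod p, ∑ y : G p, (F (uu r * y) : ℂ) * (ee (η * r) * ft F' η y) := by
    rw [← Finset.sum_congr rfl (fun r _ => h2 r), Finset.sum_const, Finset.card_univ, ZMod.card,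
      nsmul_eq_mul]
  rw [h3, Finset.sum_comm]
  refine Finset.sum_congr rfl fun y _ => ?_
  unfold ft
  rw [map_sum, Finset.mul_sum]
  refine Finset.sum_congr rfl fun r _ => ?_
  rw [map_mul, conj_ee, neg_neg, Complex.conj_ofReal]
  ring

lemma cor_ft_norm (F F' : G p → ℝ) (η : ZMod p) :
    (p : ℝ) ^ 2 * ‖∑ s : ZMod p, ee (-(η * s)) * ((∑ y, F y * F' (uu s * y) : ℝ) : ℂ)‖ ^ 2 ≤
      nf F' η * nf F η := by
  have h1 := congrArg norm (cor_ft F F' η)
  rw [norm_mul, Complex.norm_natCast] at h1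
  have h2 : ‖∑ y : G p, ft F' η y * (starRingEnd ℂ) (ft F η y)‖ ≤
      ∑ y : G p, ‖ft F' η y‖ * ‖ft F η y‖ := by
    refine (norm_sum_le _ _).trans (Finset.sum_le_sum fun y _ => ?_)
    rw [norm_mul, RCLike.norm_conj]
  have h3 := Finset.sum_mul_sq_le_sq_mul_sq (Finset.univ : Finset (G p))
    (fun y => ‖ft F' η y‖) (fun y => ‖ft F η y‖)
  rw [← mul_pow, h1]
  unfold nf
  refine le_trans ?_ h3
  exact pow_le_pow_left₀ (norm_nonneg _) h2 2

/-- The energy of the rotated function. -/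
lemma nf_mm (F : G p → ℝ) (c : (ZMod p)ˣ) (η : ZMod p) :
    nf (fun g => F (mm c * g)) η = nf F (η * (((c⁻¹ : (ZMod p)ˣ) : ZMod p) ^ 2)) := by
  unfold nf
  rw [← sum_left (mm c) (fun g => ‖ft F (η * (((c⁻¹ : (ZMod p)ˣ) : ZMod p) ^ 2)) g‖ ^ 2)]
  refine Finset.sum_congr rfl fun g _ => ?_
  congr 2
  unfold ft
  have hc : (((c⁻¹ : (ZMod p)ˣ) : ZMod p) ^ 2) * ((c : ZMod p) ^ 2) = 1 := by
    rw [← mul_pow, Units.inv_mul, one_pow]
  let e : ZMod p ≃ ZMod p := Equiv.mulLeft₀ ((c : ZMod p) ^ 2) (pow_ne_zero 2 c.ne_zero)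
  rw [← Equiv.sum_comp e (fun s => ee (-(η * ((c⁻¹ : (ZMod p)ˣ) : ZMod p) ^ 2 * s)) *
    (F (uu s * (mm c * g)) : ℂ))]
  refine Finset.sum_congr rfl fun s _ => ?_
  have he : e s = (c : ZMod p) ^ 2 * s := rfl
  change ee (-(η * s)) * (F (mm c * (uu s * g)) : ℂ) = _
  rw [he, ← mul_assoc (mm c), mm_uu, mul_assoc (uu _)]
  congr 2
  rw [mul_assoc η, ← mul_assoc (((c⁻¹ : (ZMod p)ˣ) : ZMod p) ^ 2), hc, one_mul]

/-- The map `c ↦ η c⁻²` is at most two to one. -/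
lemma sum_sq_le (N : ZMod p → ℝ) (hN : ∀ x, 0 ≤ N x) (η : ZMod p) (hη : η ≠ 0) :
    ∑ c : (ZMod p)ˣ, N (η * (((c⁻¹ : (ZMod p)ˣ) : ZMod p) ^ 2)) ≤ 2 * ∑ x : ZMod p, N x := by
  classical
  rw [← Finset.sum_fiberwise (s := (Finset.univ : Finset (ZMod p)ˣ))
    (g := fun c => η * (((c⁻¹ : (ZMod p)ˣ) : ZMod p) ^ 2)), Finset.mul_sum]
  refine Finset.sum_le_sum fun x _ => ?_
  have h1 : ∑ c ∈ Finset.univ.filter (fun c : (ZMod p)ˣ =>
      η * (((c⁻¹ : (ZMod p)ˣ) : ZMod p) ^ 2) = x), N (η * (((c⁻¹ : (ZMod p)ˣ) : ZMod p) ^ 2)) =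
      (Finset.univ.filter (fun c : (ZMod p)ˣ =>
        η * (((c⁻¹ : (ZMod p)ˣ) : ZMod p) ^ 2) = x)).card * N x := by
    rw [← nsmul_eq_mul, ← Finset.sum_const]
    refine Finset.sum_congr rfl fun c hc => ?_
    rw [(Finset.mem_filter.1 hc).2]
  rw [h1]
  refine mul_le_mul_of_nonneg_right ?_ (hN x)
  have h2 : (Finset.univ.filter (fun c : (ZMod p)ˣ =>
      η * (((c⁻¹ : (ZMod p)ˣ) : ZMod p) ^ 2) = x)).card ≤ 2 := by
    by_cases hne : (Finset.univ.filter (fun c : (ZMod p)ˣ =>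
      η * (((c⁻¹ : (ZMod p)ˣ) : ZMod p) ^ 2) = x)).Nonempty
    · obtain ⟨c₀, hc₀⟩ := hne
      have h3 : (Finset.univ.filter (fun c : (ZMod p)ˣ =>
          η * (((c⁻¹ : (ZMod p)ˣ) : ZMod p) ^ 2) = x)) ⊆ {c₀, -c₀} := by
        intro c hc
        have e1 := (Finset.mem_filter.1 hc).2
        have e2 := (Finset.mem_filter.1 hc₀).2
        have e3 : (((c⁻¹ : (ZMod p)ˣ) : ZMod p)) ^ 2 = (((c₀⁻¹ : (ZMod p)ˣ) : ZMod p)) ^ 2 :=
          mul_left_cancel₀ hη (e1.trans e2.symm)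
        rw [Finset.mem_insert, Finset.mem_singleton]
        rcases sq_eq_sq_iff_eq_or_eq_neg.1 e3 with h | h
        · left
          exact inv_injective (Units.ext h)
        · right
          have : c⁻¹ = (-c₀)⁻¹ := by
            apply Units.ext
            rw [h, inv_neg, Units.val_neg]
          exact inv_injective this
      exact (Finset.card_le_card h3).trans (Finset.card_le_two)
    · rw [Finset.not_nonempty_iff_eq_empty.1 hne]
      simp
  exact_mod_cast h2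

/-- Variance and Fourier coefficients. -/
lemma variance (C : ZMod p → ℝ) :
    ∑ s : ZMod p, (C s - (1 / p : ℝ) * ∑ s' : ZMod p, C s') ^ 2 =
      (1 / p : ℝ) * ∑ η ∈ Finset.univ.filter (fun η : ZMod p => η ≠ 0),
        ‖∑ s : ZMod p, ee (-(η * s)) * (C s : ℂ)‖ ^ 2 := by
  have hp : (p : ℝ) ≠ 0 := by exact_mod_cast (Fact.out : p.Prime).ne_zero
  have h1 := parseval (fun s : ZMod p => (C s : ℂ))
  have h2 : ∑ η : ZMod p, ‖∑ s : ZMod p, ee (-(η * s)) * (C s : ℂ)‖ ^ 2 =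
      (∑ η ∈ Finset.univ.filter (fun η : ZMod p => η ≠ 0),
        ‖∑ s : ZMod p, ee (-(η * s)) * (C s : ℂ)‖ ^ 2) + (∑ s : ZMod p, C s) ^ 2 := by
    rw [← Finset.sum_filter_add_sum_filter_not Finset.univ (fun η : ZMod p => η ≠ 0)]
    congr 1
    have h3 : Finset.univ.filter (fun η : ZMod p => ¬ η ≠ 0) = {0} := by
      ext x; simp
    rw [h3, Finset.sum_singleton]
    simp only [zero_mul, neg_zero, ee_zero, one_mul]
    rw [← Complex.ofReal_sum, Complex.norm_real, Real.norm_eq_abs, sq_abs]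
  rw [h2] at h1
  have h4 : ∀ s : ZMod p, ‖(C s : ℂ)‖ ^ 2 = C s ^ 2 := by
    intro s; rw [Complex.norm_real, Real.norm_eq_abs, sq_abs]
  simp_rw [h4] at h1
  have h5 : ∑ s : ZMod p, (C s - (1 / p : ℝ) * ∑ s' : ZMod p, C s') ^ 2 =
      ∑ s : ZMod p, C s ^ 2 - (1 / p : ℝ) * (∑ s : ZMod p, C s) ^ 2 := by
    set m := (1 / p : ℝ) * ∑ s' : ZMod p, C s' with hm
    have h6 : ∑ s : ZMod p, (C s - m) ^ 2 =
        ∑ s : ZMod p, C s ^ 2 - 2 * m * ∑ s : ZMod p, C s + p * m ^ 2 := by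
      have : ∀ s : ZMod p, (C s - m) ^ 2 = C s ^ 2 - 2 * m * C s + m ^ 2 := fun s => by ring
      simp_rw [this]
      rw [Finset.sum_add_distrib, Finset.sum_sub_distrib, ← Finset.mul_sum, Finset.sum_const,
        Finset.card_univ, ZMod.card, nsmul_eq_mul]
    rw [h6, hm]
    field_simp
    ring
  rw [h5]
  have h7 : ∑ s : ZMod p, C s ^ 2 = (1 / p : ℝ) * (p * ∑ s : ZMod p, C s ^ 2) := by
    field_simp
  rw [h7, ← h1]
  ring

end

/-- Mixing in the Borel subgroup. -/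
theorem pB : StB := by
  intro p hp F F'
  have hp0 : (0 : ℝ) < p := by exact_mod_cast (Fact.out : p.Prime).pos
  -- the correlation as a correlation along `U`
  have h1 : ∀ (c : (ZMod p)ˣ) (s : ZMod p), cor F F' c s =
      ∑ y : G p, F y * (fun g => F' (mm c * g)) (uu s * y) := by
    intro c s
    unfold cor
    refine Finset.sum_congr rfl fun y _ => ?_
    rw [mul_assoc]
  have h2 : ∀ c : (ZMod p)ˣ, ∑ s : ZMod p,
      (cor F F' c s - (1 / p : ℝ) * ∑ s' : ZMod p, cor F F' c s') ^ 2 ≤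
      (1 / (p : ℝ) ^ 3) * ∑ η ∈ Finset.univ.filter (fun η : ZMod p => η ≠ 0),
        nf F η * nf F' (η * (((c⁻¹ : (ZMod p)ˣ) : ZMod p) ^ 2)) := by
    intro c
    rw [variance, Finset.mul_sum, Finset.mul_sum]
    refine Finset.sum_le_sum fun η _ => ?_
    have h3 := cor_ft_norm F (fun g => F' (mm c * g)) η
    rw [nf_mm] at h3
    simp_rw [h1]
    have h4 : (1 / (p : ℝ)) * ‖∑ s : ZMod p, ee (-(η * s)) *
        ((∑ y, F y * (fun g => F' (mm c * g)) (uu s * y) : ℝ) : ℂ)‖ ^ 2 =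
        (1 / (p : ℝ) ^ 3) * ((p : ℝ) ^ 2 * ‖∑ s : ZMod p, ee (-(η * s)) *
        ((∑ y, F y * (fun g => F' (mm c * g)) (uu s * y) : ℝ) : ℂ)‖ ^ 2) := by
      field_simp
    rw [h4]
    refine mul_le_mul_of_nonneg_left ?_ (by positivity)
    rw [mul_comm (nf F η)]
    exact h3
  refine (Finset.sum_le_sum fun c _ => h2 c).trans ?_
  rw [← Finset.mul_sum, Finset.sum_comm]
  have h5 : ∑ η ∈ Finset.univ.filter (fun η : ZMod p => η ≠ 0), ∑ c : (ZMod p)ˣ,
      nf F η * nf F' (η * (((c⁻¹ : (ZMod p)ˣ) : ZMod p) ^ 2)) ≤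
      ∑ η ∈ Finset.univ.filter (fun η : ZMod p => η ≠ 0), nf F η * (2 * ∑ x, nf F' x) := by
    refine Finset.sum_le_sum fun η hη => ?_
    rw [← Finset.mul_sum]
    exact mul_le_mul_of_nonneg_left (sum_sq_le _ (nf_nonneg F') η (Finset.mem_filter.1 hη).2)
      (nf_nonneg F η)
  have h6 : ∑ η ∈ Finset.univ.filter (fun η : ZMod p => η ≠ 0), nf F η * (2 * ∑ x, nf F' x) ≤
      (∑ η : ZMod p, nf F η) * (2 * ∑ x, nf F' x) := by
    rw [← Finset.sum_mul]
    refine mul_le_mul_of_nonneg_right ?_ ?_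
    · exact Finset.sum_le_sum_of_subset_of_nonneg (Finset.filter_subset _ _)
        (fun η _ _ => nf_nonneg F η)
    · exact mul_nonneg zero_le_two (Finset.sum_nonneg fun x _ => nf_nonneg F' x)
  refine (mul_le_mul_of_nonneg_left (h5.trans h6) (by positivity)).trans (le_of_eq ?_)
  rw [sum_nf, sum_nf]
  field_simp

end Pool.Agent.Helper1.PFS
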