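import Pool.Agent.Helper1.PFS.B

/-!
# Product-free subsets of `SL₂(F_p)`: the core estimate
-/

set_option linter.unusedSimpArgs false
set_option linter.unusedSectionVars false

namespace Pool.Agent.Helper1.PFS

open Finset

section

variable {p : ℕ} [Fact p.Prime]

lemma det_eq (g : G p) : g.1 0 0 * g.1 1 1 - g.1 0 1 * g.1 1 0 = 1 := by
  have := g.2
  rwa [Matrix.det_fin_two] at this

lemma mul_apply (g h : G p) (i j : Fin 2) :
    (g * h).1 i j = g.1 i 0 * h.1 0 j + g.1 i 1 * h.1 1 j := by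
  rw [Matrix.SpecialLinearGroup.coe_mul, Matrix.mul_apply, Fin.sum_univ_two]

lemma uu_apply (s : ZMod p) : (uu s : G p).1 0 0 = 1 ∧ (uu s : G p).1 0 1 = s ∧
    (uu s : G p).1 1 0 = 0 ∧ (uu s : G p).1 1 1 = 1 := by
  refine ⟨?_, ?_, ?_, ?_⟩ <;> simp [uu]

lemma mm_apply (c : (ZMod p)ˣ) : (mm c : G p).1 0 0 = c ∧ (mm c : G p).1 0 1 = 0 ∧
    (mm c : G p).1 1 0 = 0 ∧ (mm c : G p).1 1 1 = ((c⁻¹ : (ZMod p)ˣ) : ZMod p) := by
  exact ⟨rfl, rfl, rfl, rfl⟩

lemma G_ext {g h : G p} (h00 : g.1 0 0 = h.1 0 0) (h01 : g.1 0 1 = h.1 0 1)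
    (h10 : g.1 1 0 = h.1 1 0) (h11 : g.1 1 1 = h.1 1 1) : g = h := by
  apply Subtype.ext
  ext i j
  fin_cases i <;> fin_cases j
  · exact h00
  · exact h01
  · exact h10
  · exact h11

/-- The matrix `(τ, -1; 1, 0)`. -/
def xt (τ : ZMod p) : G p := ⟨!![τ, -1; 1, 0], by simp [Matrix.det_fin_two]⟩

lemma xt_apply (τ : ZMod p) : (xt τ : G p).1 0 0 = τ ∧ (xt τ : G p).1 0 1 = -1 ∧
    (xt τ : G p).1 1 0 = 1 ∧ (xt τ : G p).1 1 1 = 0 := by
  refine ⟨?_, ?_, ?_, ?_⟩ <;> simp [xt]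

/-- The element with parameters `τ, c, s`. -/
def par (q : ZMod p × (ZMod p)ˣ × ZMod p) : G p := xt q.1 * (mm q.2.1 * uu q.2.2)

lemma par_apply (q : ZMod p × (ZMod p)ˣ × ZMod p) :
    (par q : G p).1 0 0 = q.1 * q.2.1 ∧ (par q : G p).1 1 0 = q.2.1 ∧
      (par q : G p).1 1 1 = q.2.1 * q.2.2 := by
  obtain ⟨τ, c, s⟩ := q
  unfold par
  obtain ⟨x00, x01, x10, x11⟩ := xt_apply τ
  obtain ⟨m00, m01, m10, m11⟩ := mm_apply c
  obtain ⟨u00, u01, u10, u11⟩ := uu_apply s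
  refine ⟨?_, ?_, ?_⟩
  · simp only [mul_apply, x00, x01, x10, x11, m00, m01, m10, m11, u00, u01, u10, u11]; ring
  · simp only [mul_apply, x00, x01, x10, x11, m00, m01, m10, m11, u00, u01, u10, u11]; ring
  · simp only [mul_apply, x00, x01, x10, x11, m00, m01, m10, m11, u00, u01, u10, u11]; ring

lemma par_inj : Function.Injective (par : ZMod p × (ZMod p)ˣ × ZMod p → G p) := by
  rintro ⟨τ, c, s⟩ ⟨τ', c', s'⟩ h
  obtain ⟨a0, a1, a2⟩ := par_apply (τ, c, s)
  obtain ⟨b0, b1, b2⟩ := par_apply (τ', c', s')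
  rw [h] at a0 a1 a2
  simp only at a0 a1 a2 b0 b1 b2
  have hc : c = c' := Units.ext (a1.symm.trans b1)
  subst hc
  have h1 : τ = τ' := mul_right_cancel₀ c.ne_zero (a0.symm.trans b0)
  have h2 : s = s' := mul_left_cancel₀ c.ne_zero (a2.symm.trans b2)
  rw [h1, h2]

lemma par_surj (g : G p) (h : g.1 1 0 ≠ 0) :
    par (g.1 0 0 * (g.1 1 0)⁻¹, Units.mk0 (g.1 1 0) h, g.1 1 1 * (g.1 1 0)⁻¹) = g := by
  obtain ⟨a0, a1, a2⟩ := par_apply (g.1 0 0 * (g.1 1 0)⁻¹, Units.mk0 (g.1 1 0) h,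
    g.1 1 1 * (g.1 1 0)⁻¹)
  simp only [Units.val_mk0] at a0 a1 a2
  rw [inv_mul_cancel_right₀ h] at a0
  have ha2 : g.1 1 0 * (g.1 1 1 * (g.1 1 0)⁻¹) = g.1 1 1 := by
    rw [mul_comm, inv_mul_cancel_right₀ h]
  rw [ha2] at a2
  refine G_ext a0 ?_ a1 a2
  have d1 := det_eq (par (g.1 0 0 * (g.1 1 0)⁻¹, Units.mk0 (g.1 1 0) h, g.1 1 1 * (g.1 1 0)⁻¹))
  have d2 := det_eq g
  rw [a0, a1, a2] at d1
  have h3 : (par (g.1 0 0 * (g.1 1 0)⁻¹, Units.mk0 (g.1 1 0) h, g.1 1 1 * (g.1 1 0)⁻¹)).1 0 1 *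
      g.1 1 0 = g.1 0 1 * g.1 1 0 := by linear_combination d2 - d1
  exact mul_right_cancel₀ h h3

/-! ### line sums -/

/-- The second row. -/
def row2 (g : G p) : ZMod p × ZMod p := (g.1 1 0, g.1 1 1)

lemma rmul_01 (g : G p) : rmul (0, 1) g = row2 g := by
  unfold rmul row2
  simp

lemma row2_uu (s : ZMod p) (g : G p) : row2 (uu s * g) = row2 g := by
  unfold row2
  obtain ⟨u00, u01, u10, u11⟩ := uu_apply s
  rw [mul_apply, mul_apply, u10, u11]
  simp

lemma uu_left_inj {s s' : ZMod p} {g : G p} (h : uu s * g = uu s' * g) : s = s' := by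
  have h1 : (uu s : G p) = uu s' := mul_right_cancel h
  have h2 := congrArg (fun x : G p => x.1 0 1) h1
  simp only [(uu_apply s).2.1, (uu_apply s').2.1] at h2
  exact h2

lemma exists_uu {g z : G p} (h : row2 g = row2 z) : ∃ s, uu s * z = g := by
  have h1 : g.1 1 0 = z.1 1 0 := congrArg Prod.fst h
  have h2 : g.1 1 1 = z.1 1 1 := congrArg Prod.snd h
  have hz : z * z⁻¹ = 1 := mul_inv_cancel z
  have e10 : (g * z⁻¹).1 1 0 = 0 := by
    have := congrArg (fun x : G p => x.1 1 0) hz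
    simp only [mul_apply] at this
    rw [mul_apply, h1, h2]
    simpa using this
  have e11 : (g * z⁻¹).1 1 1 = 1 := by
    have := congrArg (fun x : G p => x.1 1 1) hz
    simp only [mul_apply] at this
    rw [mul_apply, h1, h2]
    simpa using this
  have e00 : (g * z⁻¹).1 0 0 = 1 := by
    have := det_eq (g * z⁻¹)
    rw [e10, e11] at this
    linear_combination this
  refine ⟨(g * z⁻¹).1 0 1, ?_⟩
  have h3 : uu ((g * z⁻¹).1 0 1) = g * z⁻¹ := by
    obtain ⟨u00, u01, u10, u11⟩ := uu_apply ((g * z⁻¹).1 0 1)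
    exact G_ext (u00.trans e00.symm) u01 (u10.trans e10.symm) (u11.trans e11.symm)
  rw [h3, inv_mul_cancel_right]

lemma lineSum_row2 (f : G p → ℝ) (z : G p) :
    lineSum f (0, 1) (row2 z) = ∑ s : ZMod p, f (uu s * z) := by
  unfold lineSum
  simp_rw [rmul_01]
  rw [← Finset.sum_filter]
  symm
  refine Finset.sum_bij (fun s _ => uu s * z) ?_ ?_ ?_ ?_
  · intro s _
    rw [Finset.mem_filter]
    exact ⟨Finset.mem_univ _, row2_uu s z⟩
  · intro s _ s' _ h
    exact uu_left_inj h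
  · intro g hg
    obtain ⟨s, hs⟩ := exists_uu (Finset.mem_filter.1 hg).2
    exact ⟨s, Finset.mem_univ _, hs⟩
  · intro s _
    rfl

lemma sum_lineSum (f : G p → ℝ) (r : ZMod p × ZMod p) (R : ZMod p × ZMod p → ℝ) :
    ∑ v, R v * lineSum f r v = ∑ g, R (rmul r g) * f g := by
  unfold lineSum
  simp_rw [Finset.mul_sum]
  rw [Finset.sum_comm]
  refine Finset.sum_congr rfl fun g _ => ?_
  rw [Finset.sum_eq_single (rmul r g)]
  · rw [if_pos rfl]
  · intro v _ hv
    rw [if_neg (Ne.symm hv), mul_zero]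
  · intro h; exact absurd (Finset.mem_univ _) h

/-- The average over `x U` of the correlation. -/
lemma sum_phi (f : G p → ℝ) (x : G p) :
    ∑ s : ZMod p, ∑ y, f y * f (x * uu s * y) =
      ∑ v, lineSum f (0, 1) v * lineSum f (-(x.1 1 0), x.1 0 0) v := by
  rw [sum_lineSum]
  have h1 : ∀ s : ZMod p, ∑ y, f y * f (x * uu s * y) = ∑ z, f (uu (-s) * z) * f (x * z) := by
    intro s
    rw [← sum_left (uu s) (fun z => f (uu (-s) * z) * f (x * z))]
    refine Finset.sum_congr rfl fun y _ => ?_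
    rw [← mul_assoc (uu (-s)), ← uu_add, neg_add_cancel, uu_zero, one_mul, mul_assoc]
  simp_rw [h1]
  rw [Finset.sum_comm, ← sum_left x (fun g => lineSum f (0, 1) (rmul (-(x.1 1 0), x.1 0 0) g) * f g)]
  refine Finset.sum_congr rfl fun z _ => ?_
  rw [← Finset.sum_mul]
  congr 1
  have h2 : rmul (-(x.1 1 0), x.1 0 0) (x * z) = row2 z := by
    unfold rmul row2
    rw [mul_apply, mul_apply, mul_apply, mul_apply]
    have hd := det_eq x
    refine Prod.ext ?_ ?_
    · simp only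
      linear_combination z.1 1 0 * hd
    · simp only
      linear_combination z.1 1 1 * hd
  rw [h2, lineSum_row2]
  exact Equiv.sum_comp (Equiv.neg (ZMod p)) (fun s => f (uu s * z))

end

section core

variable {p : ℕ} [Fact p.Prime]

/-- The balanced indicator function. -/
noncomputable def bal (S : Finset (G p)) (g : G p) : ℝ :=
  (if g ∈ S then (1 : ℝ) else 0) - (S.card : ℝ) / Fintype.card (G p)

lemma card_pos' : (0 : ℝ) < Fintype.card (G p) := by
  have : 0 < Fintype.card (G p) := Fintype.card_pos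
  exact_mod_cast this

lemma sum_ind (S : Finset (G p)) : ∑ g : G p, (if g ∈ S then (1 : ℝ) else 0) = S.card := by
  rw [Finset.sum_ite_mem, Finset.univ_inter, Finset.sum_const, nsmul_eq_mul, mul_one]

lemma sum_bal (S : Finset (G p)) : ∑ g, bal S g = 0 := by
  unfold bal
  rw [Finset.sum_sub_distrib, sum_ind, Finset.sum_const, Finset.card_univ, nsmul_eq_mul]
  have := card_pos' (p := p)
  field_simp
  ring

/-- Correlation of the indicator functions. -/
lemma cor_bal (S : Finset (G p)) (x : G p) :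
    ∑ y, bal S y * bal S (x * y) =
      (∑ y, (if y ∈ S then (1 : ℝ) else 0) * (if x * y ∈ S then (1 : ℝ) else 0)) -
        (S.card : ℝ) ^ 2 / Fintype.card (G p) := by
  have hn := card_pos' (p := p)
  unfold bal
  set δ : ℝ := (S.card : ℝ) / Fintype.card (G p) with hδ
  have h1 : ∀ y : G p, ((if y ∈ S then (1 : ℝ) else 0) - δ) * ((if x * y ∈ S then (1 : ℝ) else 0) - δ)
      = (if y ∈ S then (1 : ℝ) else 0) * (if x * y ∈ S then (1 : ℝ) else 0) -
        δ * (if y ∈ S then (1 : ℝ) else 0) - δ * (if x * y ∈ S then (1 : ℝ) else 0) + δ ^ 2 := by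
    intro y; ring
  simp_rw [h1]
  rw [Finset.sum_add_distrib, Finset.sum_sub_distrib, Finset.sum_sub_distrib, ← Finset.mul_sum,
    ← Finset.mul_sum, sum_ind, sum_left x (fun y => if y ∈ S then (1 : ℝ) else 0), sum_ind,
    Finset.sum_const, Finset.card_univ, nsmul_eq_mul, hδ]
  field_simp
  ring

lemma sum_bal_sq (S : Finset (G p)) : ∑ g, bal S g ^ 2 ≤ S.card := by
  have h1 := cor_bal S 1
  simp only [one_mul] at h1
  have h2 : ∑ g, bal S g ^ 2 = ∑ g, bal S g * bal S g := by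
    refine Finset.sum_congr rfl fun g _ => pow_two _
  rw [h2, h1]
  have h3 : ∑ y : G p, (if y ∈ S then (1 : ℝ) else 0) * (if y ∈ S then (1 : ℝ) else 0) =
      S.card := by
    rw [← sum_ind]
    refine Finset.sum_congr rfl fun y _ => ?_
    by_cases h : y ∈ S <;> simp [h]
  rw [h3]
  have : 0 ≤ (S.card : ℝ) ^ 2 / Fintype.card (G p) := by positivity
  linarith

/-- Sum of the squares of the row sums. -/
lemma sum_row_sq (S : Finset (G p)) (Θ : Finset (ZMod p))
    (hΘ : ∀ g ∈ S, g.1 1 0 ≠ 0 ∧ g.1 0 0 * (g.1 1 0)⁻¹ ∈ Θ) :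
    ∑ v, lineSum (bal S) (0, 1) v ^ 2 ≤ Θ.card * S.card := by
  have h1 : ∑ v, lineSum (bal S) (0, 1) v ^ 2 =
      ∑ v, lineSum (bal S) (0, 1) v * lineSum (bal S) (0, 1) v :=
    Finset.sum_congr rfl fun v _ => pow_two _
  rw [h1, sum_lineSum]
  simp_rw [rmul_01, lineSum_row2]
  have hδ : 0 ≤ (S.card : ℝ) / Fintype.card (G p) := by positivity
  -- the sum with `bal` replaced by the indicator
  have h2 : ∑ g, (∑ s : ZMod p, bal S (uu s * g)) * bal S g =
      ∑ s : ZMod p, ∑ g, bal S g * bal S (uu s * g) := by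
    rw [Finset.sum_comm]
    refine Finset.sum_congr rfl fun g _ => ?_
    rw [Finset.sum_mul]
    exact Finset.sum_congr rfl fun s _ => mul_comm _ _
  rw [h2]
  have h3 : ∀ s : ZMod p, ∑ g, bal S g * bal S (uu s * g) ≤
      ∑ g, (if g ∈ S then (1 : ℝ) else 0) * (if uu s * g ∈ S then (1 : ℝ) else 0) := by
    intro s
    rw [cor_bal]
    have : 0 ≤ (S.card : ℝ) ^ 2 / Fintype.card (G p) := by positivity
    linarith
  refine (Finset.sum_le_sum fun s _ => h3 s).trans ?_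
  rw [Finset.sum_comm]
  have h4 : ∀ g : G p, ∑ s : ZMod p, (if g ∈ S then (1 : ℝ) else 0) *
      (if uu s * g ∈ S then (1 : ℝ) else 0) ≤ (if g ∈ S then (1 : ℝ) else 0) * Θ.card := by
    intro g
    rw [← Finset.mul_sum]
    by_cases hg : g ∈ S
    · rw [if_pos hg, one_mul, one_mul]
      have h5 : ∑ s : ZMod p, (if uu s * g ∈ S then (1 : ℝ) else 0) =
          ((Finset.univ.filter (fun s : ZMod p => uu s * g ∈ S)).card : ℝ) := by
        rw [Finset.card_filter]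
        push_cast
        rfl
      rw [h5]
      have h6 : (Finset.univ.filter (fun s : ZMod p => uu s * g ∈ S)).card ≤ Θ.card := by
        refine Finset.card_le_card_of_injOn (fun s => g.1 0 0 * (g.1 1 0)⁻¹ + s) ?_ ?_
        · intro s hs
          have hs' := (Finset.mem_filter.1 (Finset.mem_coe.1 hs)).2
          obtain ⟨a1, a2⟩ := hΘ _ hs'
          obtain ⟨b1, -⟩ := hΘ _ hg
          obtain ⟨u00, u01, u10, u11⟩ := uu_apply s
          rw [mul_apply, mul_apply, u00, u01, u10, u11] at a2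
          simp only [zero_mul, one_mul, zero_add] at a2
          rw [add_mul, mul_assoc s, mul_inv_cancel₀ b1, mul_one] at a2
          exact Finset.mem_coe.2 a2
        · intro s _ s' _ h
          exact add_left_cancel h
      exact_mod_cast h6
    · rw [if_neg hg, zero_mul, zero_mul]
  refine (Finset.sum_le_sum fun g _ => h4 g).trans (le_of_eq ?_)
  rw [← Finset.sum_mul, sum_ind, mul_comm]

/-- The core estimate. -/
theorem core (hA : StA) (S : Finset (G p)) (hS : ∀ x ∈ S, ∀ y ∈ S, x * y ∉ S)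
    (Θ : Finset (ZMod p)) (hΘ : ∀ g ∈ S, g.1 1 0 ≠ 0 ∧ g.1 0 0 * (g.1 1 0)⁻¹ ∈ Θ) :
    (S.card : ℝ) ^ 3 ≤ (4 * p - 2) * Θ.card * (Fintype.card (G p) : ℝ) ^ 2 := by
  classical
  have hn := card_pos' (p := p)
  have hp2 : (2 : ℝ) ≤ p := by exact_mod_cast (Fact.out : p.Prime).two_le
  set n : ℝ := (Fintype.card (G p) : ℝ) with hn_def
  set m : ℝ := (S.card : ℝ) with hm_def
  have hm0 : 0 ≤ m := by positivity
  set f : G p → ℝ := bal S with hf
  set phi : G p → ℝ := fun x => ∑ y, f y * f (x * y) with hphi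
  have hf2 : ∑ g, f g ^ 2 ≤ m := sum_bal_sq S
  have hf20 : 0 ≤ ∑ g, f g ^ 2 := Finset.sum_nonneg fun _ _ => sq_nonneg _
  -- the value on S
  have hval : ∀ x ∈ S, phi x = -(m ^ 2 / n) := by
    intro x hx
    change ∑ y, f y * f (x * y) = _
    rw [hf, cor_bal]
    have h1 : ∑ y : G p, (if y ∈ S then (1 : ℝ) else 0) * (if x * y ∈ S then (1 : ℝ) else 0) = 0 := by
      refine Finset.sum_eq_zero fun y _ => ?_
      by_cases hy : y ∈ S
      · rw [if_neg (hS x hx y hy), mul_zero]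
      · rw [if_neg hy, zero_mul]
    rw [h1, zero_sub]
  have hL : ∑ x ∈ S, phi x ^ 2 = m * (m ^ 2 / n) ^ 2 := by
    rw [Finset.sum_congr rfl (fun x hx => by rw [hval x hx, neg_sq]), Finset.sum_const,
      nsmul_eq_mul]
  -- parametrization
  have hT1 : ∑ x ∈ S, phi x ^ 2 ≤ ∑ τ ∈ Θ, ∑ c : (ZMod p)ˣ, ∑ s : ZMod p,
      phi (xt τ * (mm c * uu s)) ^ 2 := by
    have h1 : S ⊆ (Θ ×ˢ (Finset.univ : Finset ((ZMod p)ˣ × ZMod p))).image par := by
      intro g hg
      obtain ⟨a1, a2⟩ := hΘ g hg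
      rw [Finset.mem_image]
      exact ⟨_, Finset.mem_product.2 ⟨a2, Finset.mem_univ _⟩, par_surj g a1⟩
    refine (Finset.sum_le_sum_of_subset_of_nonneg h1 fun x _ _ => sq_nonneg _).trans ?_
    rw [Finset.sum_image (fun a _ b _ h => par_inj h), Finset.sum_product]
    refine Finset.sum_le_sum fun τ _ => ?_
    rw [Fintype.sum_prod_type]
    exact le_of_eq rfl
  -- the correlation
  have hcor : ∀ τ (c : (ZMod p)ˣ) (s : ZMod p), phi (xt τ * (mm c * uu s)) =
      cor f (fun g => f (xt τ * g)) c s := by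
    intro τ c s
    unfold cor
    change ∑ y, f y * f (xt τ * (mm c * uu s) * y) = _
    refine Finset.sum_congr rfl fun y _ => ?_
    rw [mul_assoc (xt τ)]
  have hT2 : ∀ τ, ∑ c : (ZMod p)ˣ, ∑ s : ZMod p, phi (xt τ * (mm c * uu s)) ^ 2 ≤
      2 * p * m ^ 2 + ∑ c : (ZMod p)ˣ, (1 / p : ℝ) *
        (∑ s : ZMod p, phi (xt τ * (mm c * uu s))) ^ 2 := by
    intro τ
    have h1 := pB p f (fun g => f (xt τ * g))
    have h2 : ∑ g, (fun g => f (xt τ * g)) g ^ 2 = ∑ g, f g ^ 2 :=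
      sum_left (xt τ) (fun g => f g ^ 2)
    rw [h2] at h1
    have h3 : 2 * (p : ℝ) * (∑ g, f g ^ 2) * ∑ g, f g ^ 2 ≤ 2 * p * m ^ 2 := by
      rw [mul_assoc, ← pow_two]
      exact mul_le_mul_of_nonneg_left (pow_le_pow_left₀ hf20 hf2 2) (by positivity)
    have h4 : ∀ c : (ZMod p)ˣ, ∑ s : ZMod p, phi (xt τ * (mm c * uu s)) ^ 2 =
        ∑ s : ZMod p, (cor f (fun g => f (xt τ * g)) c s -
          (1 / p : ℝ) * ∑ s' : ZMod p, cor f (fun g => f (xt τ * g)) c s') ^ 2 +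
        (1 / p : ℝ) * (∑ s : ZMod p, phi (xt τ * (mm c * uu s))) ^ 2 := by
      intro c
      simp_rw [hcor]
      set C := cor f (fun g => f (xt τ * g)) c with hC
      set a := (1 / p : ℝ) * ∑ s' : ZMod p, C s' with ha
      have h6 : ∑ s : ZMod p, (C s - a) ^ 2 =
          ∑ s : ZMod p, C s ^ 2 - 2 * a * ∑ s : ZMod p, C s + p * a ^ 2 := by
        have : ∀ s : ZMod p, (C s - a) ^ 2 = C s ^ 2 - 2 * a * C s + a ^ 2 := fun s => by ring
        simp_rw [this]
        rw [Finset.sum_add_distrib, Finset.sum_sub_distrib, ← Finset.mul_sum, Finset.sum_const,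
          Finset.card_univ, ZMod.card, nsmul_eq_mul]
      rw [h6, ha]
      have hp0 : (p : ℝ) ≠ 0 := by positivity
      field_simp
      ring
    simp_rw [h4]
    rw [Finset.sum_add_distrib]
    linarith
  -- the averages
  have hT3 : ∀ (τ : ZMod p) (c : (ZMod p)ˣ), (∑ s : ZMod p, phi (xt τ * (mm c * uu s))) ^ 2 ≤
      (Θ.card * m) * ∑ v, lineSum f (-(c : ZMod p), τ * c) v ^ 2 := by
    intro τ c
    have h1 : ∑ s : ZMod p, phi (xt τ * (mm c * uu s)) =
        ∑ v, lineSum f (0, 1) v * lineSum f (-(c : ZMod p), τ * c) v := by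
      have h2 := sum_phi f (xt τ * mm c)
      obtain ⟨x00, x01, x10, x11⟩ := xt_apply τ
      obtain ⟨m00, m01, m10, m11⟩ := mm_apply c
      have e1 : (xt τ * mm c).1 1 0 = (c : ZMod p) := by
        rw [mul_apply, x10, x11, m00, m10]; ring
      have e2 : (xt τ * mm c).1 0 0 = τ * (c : ZMod p) := by
        rw [mul_apply, x00, x01, m00, m10]; ring
      rw [e1, e2] at h2
      rw [← h2]
      refine Finset.sum_congr rfl fun s _ => ?_
      change ∑ y, f y * f (xt τ * (mm c * uu s) * y) = _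
      rw [← mul_assoc (xt τ)]
    rw [h1]
    refine (Finset.sum_mul_sq_le_sq_mul_sq _ _ _).trans ?_
    exact mul_le_mul_of_nonneg_right (sum_row_sq S Θ hΘ) (Finset.sum_nonneg fun _ _ => sq_nonneg _)
  have hT5 : ∑ τ ∈ Θ, ∑ c : (ZMod p)ˣ, ∑ v, lineSum f (-(c : ZMod p), τ * c) v ^ 2 ≤
      2 * p * (p - 1) * m := by
    have h1 := hA p f (sum_bal S)
    have h2 : ∑ τ ∈ Θ, ∑ c : (ZMod p)ˣ, ∑ v, lineSum f (-(c : ZMod p), τ * c) v ^ 2 ≤
        ∑ r : ZMod p × ZMod p, ∑ v, lineSum f r v ^ 2 := by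
      rw [← Finset.sum_product']
      have hinj : Set.InjOn (fun q : ZMod p × (ZMod p)ˣ => (-(q.2 : ZMod p), q.1 * (q.2 : ZMod p)))
          ((Θ ×ˢ (Finset.univ : Finset (ZMod p)ˣ) : Finset (ZMod p × (ZMod p)ˣ)) :
            Set (ZMod p × (ZMod p)ˣ)) := by
        rintro ⟨τ, c⟩ _ ⟨τ', c'⟩ _ h
        simp only [Prod.mk.injEq, neg_inj] at h
        have hc : c = c' := Units.ext h.1
        subst hc
        rw [mul_right_cancel₀ c.ne_zero h.2]
      rw [← Finset.sum_image (f := fun r : ZMod p × ZMod p => ∑ v, lineSum f r v ^ 2) hinj]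
      exact Finset.sum_le_sum_of_subset_of_nonneg (Finset.subset_univ _)
        fun r _ _ => Finset.sum_nonneg fun _ _ => sq_nonneg _
    have h3 : 2 * (p : ℝ) * (p - 1) * ∑ g, f g ^ 2 ≤ 2 * p * (p - 1) * m := by
      refine mul_le_mul_of_nonneg_left hf2 ?_
      have : (0 : ℝ) ≤ p - 1 := by linarith
      positivity
    linarith
  -- conclusion
  have hfin : m * (m ^ 2 / n) ^ 2 ≤ (4 * p - 2) * Θ.card * m ^ 2 := by
    rw [← hL]
    refine hT1.trans ?_
    refine (Finset.sum_le_sum fun τ _ => hT2 τ).trans ?_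
    rw [Finset.sum_add_distrib, Finset.sum_const, nsmul_eq_mul]
    have h1 : ∑ τ ∈ Θ, ∑ c : (ZMod p)ˣ, (1 / p : ℝ) *
        (∑ s : ZMod p, phi (xt τ * (mm c * uu s))) ^ 2 ≤
        (1 / p : ℝ) * (Θ.card * m) * (2 * p * (p - 1) * m) := by
      have h2 : ∑ τ ∈ Θ, ∑ c : (ZMod p)ˣ, (1 / p : ℝ) *
          (∑ s : ZMod p, phi (xt τ * (mm c * uu s))) ^ 2 ≤
          ∑ τ ∈ Θ, ∑ c : (ZMod p)ˣ, (1 / p : ℝ) * (Θ.card * m) *
            ∑ v, lineSum f (-(c : ZMod p), τ * c) v ^ 2 := by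
        refine Finset.sum_le_sum fun τ _ => Finset.sum_le_sum fun c _ => ?_
        rw [mul_assoc]
        exact mul_le_mul_of_nonneg_left (hT3 τ c) (by positivity)
      refine h2.trans ?_
      simp_rw [← Finset.mul_sum]
      exact mul_le_mul_of_nonneg_left hT5 (by positivity)
    have h3 : (1 / p : ℝ) * (Θ.card * m) * (2 * p * (p - 1) * m) =
        (2 * p - 2) * Θ.card * m ^ 2 := by
      have hp0 : (p : ℝ) ≠ 0 := by positivity
      field_simp
    rw [h3] at h1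
    nlinarith [h1]
  rcases hm0.eq_or_lt with h | h
  · rw [← h]
    have h1 : (0 : ℝ) ≤ 4 * p - 2 := by linarith
    have h2 : (0 : ℝ) ≤ (4 * p - 2) * Θ.card * n ^ 2 :=
      mul_nonneg (mul_nonneg h1 (Nat.cast_nonneg _)) (sq_nonneg _)
    simpa using h2
  · have h1 : m * (m ^ 2 / n) ^ 2 = m ^ 2 * (m ^ 3 / n ^ 2) := by
      field_simp
    rw [h1, mul_comm ((4 * (p : ℝ) - 2) * Θ.card)] at hfin
    have h2 := le_of_mul_le_mul_left hfin (by positivity : 0 < m ^ 2)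
    rwa [div_le_iff₀ (by positivity)] at h2

end core

end Pool.Agent.Helper1.PFS
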