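import Pool.Agent.Helper1.PFS.A
import Pool.Agent.Helper1.PFS.C

/-!
# Product-free subsets of `SL₂(F_p)`: the final theorem
-/

set_option linter.unusedSectionVars false

namespace Pool.Agent.Helper1.PFS

open Finset
open scoped LinearAlgebra.Projectivization

section

variable {p : ℕ} [Fact p.Prime]

/-- The order of `SL₂(F_p)`. -/
lemma card_G : Fintype.card (G p) = p * (p ^ 2 - 1) := by
  have hp1 : 1 ≤ p ^ 2 := Nat.one_le_pow _ _ (Fact.out : p.Prime).pos
  have h1 : ((Fintype.card (G p) : ℕ) : ℝ) = p * (p ^ 2 - 1) := by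
    have h2 := sum_pair (p := p) (r := (1, 0)) (r' := (0, 1)) (by simp [dd]) (fun _ _ => (1 : ℝ))
    rw [Finset.sum_const, Finset.card_univ, nsmul_eq_mul, mul_one] at h2
    rw [h2]
    have h3 : ∀ v : ZMod p × ZMod p, (∑ v' : ZMod p × ZMod p,
        if dd ((1, 0) : ZMod p × ZMod p) (0, 1) = dd v v' then (1 : ℝ) else 0) =
        p - (if v = 0 then (p : ℝ) else 0) := by
      intro v
      by_cases hv : v = 0
      · subst hv
        rw [if_pos rfl, sub_self]
        refine Finset.sum_eq_zero fun v' _ => ?_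
        rw [if_neg]
        simp [dd]
      · rw [if_neg hv, sub_zero, ← card_dd hv (dd ((1, 0) : ZMod p × ZMod p) (0, 1))]
        refine Finset.sum_congr rfl fun v' _ => ?_
        by_cases h : dd ((1, 0) : ZMod p × ZMod p) (0, 1) = dd v v'
        · rw [if_pos h, if_pos h.symm]
        · rw [if_neg h, if_neg (fun h' => h h'.symm)]
    simp_rw [h3]
    rw [Finset.sum_sub_distrib, Finset.sum_const, Finset.card_univ, Fintype.card_prod, ZMod.card,
      nsmul_eq_mul, Finset.sum_ite_eq']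
    simp only [Finset.mem_univ, if_true]
    push_cast
    ring
  have h4 : (((p * (p ^ 2 - 1) : ℕ)) : ℝ) = p * (p ^ 2 - 1) := by
    push_cast [Nat.cast_sub hp1]
    ring
  exact_mod_cast h1.trans h4.symm

/-- The point at infinity. -/
noncomputable def inf' (p : ℕ) [Fact p.Prime] : ℙ (ZMod p) (Fin 2 → ZMod p) :=
  Projectivization.mk (ZMod p) ![1, 0] (by
    intro h
    have := congrFun h 0
    simp at this)

/-- The finite points. -/
noncomputable def pt (τ : ZMod p) : ℙ (ZMod p) (Fin 2 → ZMod p) :=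
  Projectivization.mk (ZMod p) ![τ, 1] (by
    intro h
    have := congrFun h 1
    simp at this)

lemma pt_inj : Function.Injective (pt : ZMod p → ℙ (ZMod p) (Fin 2 → ZMod p)) := by
  intro τ τ' h
  unfold pt at h
  rw [Projectivization.mk_eq_mk_iff'] at h
  obtain ⟨a, ha⟩ := h
  have h1 := congrFun ha 1
  have h0 := congrFun ha 0
  simp only [Pi.smul_apply, Matrix.cons_val_one, Matrix.cons_val_zero, smul_eq_mul, mul_one,
    Matrix.cons_val_fin_one] at h1 h0
  rw [← h0, h1, one_mul]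

lemma smul_vec (g : G p) : g • (![1, 0] : Fin 2 → ZMod p) = ![g.1 0 0, g.1 1 0] := by
  rw [Matrix.SpecialLinearGroup.smul_def, Matrix.smul_eq_mulVec]
  funext i
  fin_cases i <;> simp [Matrix.mulVec, dotProduct, Fin.sum_univ_two]

lemma smul_inf_zero (g : G p) (h : g.1 1 0 = 0) : g • inf' p = inf' p := by
  unfold inf'
  rw [Projectivization.smul_mk, Projectivization.mk_eq_mk_iff']
  refine ⟨g.1 0 0, ?_⟩
  rw [smul_vec, h]
  funext i
  fin_cases i <;> simp

lemma smul_inf_ne (g : G p) (h : g.1 1 0 ≠ 0) :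
    g • inf' p = pt (g.1 0 0 * (g.1 1 0)⁻¹) := by
  unfold inf' pt
  rw [Projectivization.smul_mk, Projectivization.mk_eq_mk_iff']
  refine ⟨g.1 1 0, ?_⟩
  rw [smul_vec]
  funext i
  fin_cases i
  · simp only [Pi.smul_apply, smul_eq_mul]
    change g.1 1 0 * (g.1 0 0 * (g.1 1 0)⁻¹) = g.1 0 0
    rw [mul_comm, inv_mul_cancel_right₀ h]
  · simp only [Pi.smul_apply, smul_eq_mul]
    change g.1 1 0 * 1 = g.1 1 0
    rw [mul_one]

end

/-- The final theorem. -/
theorem final (p : ℕ) [Fact p.Prime] (S : Set (G p)) (hS : ∀ x ∈ S, ∀ y ∈ S, x * y ∉ S)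
    (α : ℙ (ZMod p) (Fin 2 → ZMod p)) (Θ : Set (ℙ (ZMod p) (Fin 2 → ZMod p))) (hα : α ∉ Θ) :
    {s | s ∈ S ∧ s • α ∈ Θ}.ncard ^ 3 ≤ (4 * p - 2) * Θ.ncard * (p * (p ^ 2 - 1)) ^ 2 := by
  classical
  have hfin : Finite (ℙ (ZMod p) (Fin 2 → ZMod p)) := by
    have : Function.Surjective (fun v : {v : Fin 2 → ZMod p // v ≠ 0} =>
        Projectivization.mk (ZMod p) v.1 v.2) := by
      intro x
      induction x using Projectivization.ind with
      | h v hv => exact ⟨⟨v, hv⟩, rfl⟩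
    exact Finite.of_surjective _ this
  obtain ⟨k, hk⟩ : ∃ k : G p, k • inf' p = α := MulAction.exists_smul_eq (G p) (inf' p) α
  set T : Set (G p) := {s | s ∈ S ∧ s • α ∈ Θ} with hT
  have hTf : T.Finite := Set.toFinite T
  set S' : Finset (G p) := hTf.toFinset.image (fun s => k⁻¹ * s * k) with hS'
  have hcard : S'.card = T.ncard := by
    rw [hS', Finset.card_image_of_injective, Set.ncard_eq_toFinset_card T hTf]
    intro a b hab
    exact mul_left_cancel (mul_right_cancel hab)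
  have hmem : ∀ g ∈ S', k * g * k⁻¹ ∈ T := by
    intro g hg
    rw [hS', Finset.mem_image] at hg
    obtain ⟨s, hs, rfl⟩ := hg
    have : k * (k⁻¹ * s * k) * k⁻¹ = s := by group
    rw [this]
    exact hTf.mem_toFinset.1 hs
  set Θ' : Finset (ZMod p) := Finset.univ.filter (fun τ => k • pt τ ∈ Θ) with hΘ'
  have hΘcard : Θ'.card ≤ Θ.ncard := by
    rw [← Set.ncard_coe_finset]
    refine Set.ncard_le_ncard_of_injOn (fun τ => k • pt τ) ?_ ?_ (Set.toFinite Θ)
    · intro τ hτ
      exact (Finset.mem_filter.1 (Finset.mem_coe.1 hτ)).2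
    · intro τ _ τ' _ h
      exact pt_inj (MulAction.injective k h)
  have hact : ∀ g ∈ S', k • (g • inf' p) ∈ Θ := by
    intro g hg
    have h1 := (hmem g hg).2
    rw [← hk, smul_smul] at h1
    rw [smul_smul]
    have : k * g * k⁻¹ * k = k * g := by group
    rwa [this] at h1
  have hcond : ∀ g ∈ S', g.1 1 0 ≠ 0 ∧ g.1 0 0 * (g.1 1 0)⁻¹ ∈ Θ' := by
    intro g hg
    have h1 := hact g hg
    have h2 : g.1 1 0 ≠ 0 := by
      intro h
      rw [smul_inf_zero g h, hk] at h1
      exact hα h1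
    refine ⟨h2, ?_⟩
    rw [hΘ', Finset.mem_filter]
    refine ⟨Finset.mem_univ _, ?_⟩
    rwa [smul_inf_ne g h2] at h1
  have hpf : ∀ x ∈ S', ∀ y ∈ S', x * y ∉ S' := by
    intro x hx y hy hxy
    have h1 := (hmem x hx).1
    have h2 := (hmem y hy).1
    have h3 := (hmem _ hxy).1
    have h4 : k * (x * y) * k⁻¹ = (k * x * k⁻¹) * (k * y * k⁻¹) := by group
    rw [h4] at h3
    exact hS _ h1 _ h2 h3
  have hcore := core pA S' hpf Θ' hcond
  rw [card_G, hcard] at hcore
  have hp2 : 2 ≤ 4 * p := by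
    have := (Fact.out : p.Prime).two_le
    omega
  have h5 : ((T.ncard : ℕ) : ℝ) ^ 3 ≤ (((4 * p - 2) * Θ.ncard * (p * (p ^ 2 - 1)) ^ 2 : ℕ) : ℝ) := by
    refine hcore.trans ?_
    push_cast [Nat.cast_sub hp2]
    have h6 : (Θ'.card : ℝ) ≤ Θ.ncard := by exact_mod_cast hΘcard
    have h7 : (0 : ℝ) ≤ 4 * p - 2 := by
      have : (2 : ℝ) ≤ ((4 * p : ℕ) : ℝ) := by exact_mod_cast hp2
      push_cast at this
      linarith
    refine mul_le_mul_of_nonneg_right ?_ (sq_nonneg _)
    exact mul_le_mul_of_nonneg_left h6 h7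
  exact_mod_cast h5

end Pool.Agent.Helper1.PFS
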