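import Mathlib

/-!
# Product-free subsets of `SL₂(F_p)`: statements of the lemmas
-/

namespace Pool.Agent.Helper1.PFS

open Finset

/-- `SL₂(F_p)`. -/
abbrev G (p : ℕ) : Type := Matrix.SpecialLinearGroup (Fin 2) (ZMod p)

/-- The row vector `r g`. -/
def rmul {p : ℕ} (r : ZMod p × ZMod p) (g : G p) : ZMod p × ZMod p :=
  (r.1 * g.1 0 0 + r.2 * g.1 1 0, r.1 * g.1 0 1 + r.2 * g.1 1 1)

/-- The sum of `f` over the line `{g : r g = v}` of `SL₂(F_p)`. -/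
noncomputable def lineSum {p : ℕ} [Fact p.Prime] (f : G p → ℝ) (r v : ZMod p × ZMod p) : ℝ :=
  ∑ g : G p, if rmul r g = v then f g else 0

/-- Lemma A: the second eigenvalue of the lines of the quadric `det = 1`. -/
def StA : Prop := ∀ (p : ℕ) [Fact p.Prime] (f : G p → ℝ), ∑ g, f g = 0 →
  ∑ r : ZMod p × ZMod p, ∑ v : ZMod p × ZMod p, lineSum f r v ^ 2 ≤
    2 * p * (p - 1) * ∑ g, f g ^ 2

/-- The upper unipotent matrix. -/
def uu {p : ℕ} (s : ZMod p) : G p := ⟨!![1, s; 0, 1], by simp [Matrix.det_fin_two]⟩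

/-- The diagonal matrix `diag (c, c⁻¹)`. -/
def mm {p : ℕ} (c : (ZMod p)ˣ) : G p :=
  ⟨!![(c : ZMod p), 0; 0, ((c⁻¹ : (ZMod p)ˣ) : ZMod p)], by simp [Matrix.det_fin_two]⟩

/-- The correlation `∑ y, F y * F' (diag (c, c⁻¹) u(s) y)`. -/
noncomputable def cor {p : ℕ} [Fact p.Prime] (F F' : G p → ℝ) (c : (ZMod p)ˣ) (s : ZMod p) : ℝ :=
  ∑ y : G p, F y * F' (mm c * uu s * y)

/-- Lemma B: mixing in the Borel subgroup. -/
def StB : Prop := ∀ (p : ℕ) [Fact p.Prime] (F F' : G p → ℝ),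
  ∑ c : (ZMod p)ˣ, ∑ s : ZMod p, (cor F F' c s - (1 / p : ℝ) * ∑ s' : ZMod p, cor F F' c s') ^ 2 ≤
    2 * p * (∑ g, F g ^ 2) * ∑ g, F' g ^ 2

end Pool.Agent.Helper1.PFS
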